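import Pool.Agent.helper577_eps.Two
import Pool.Agent.H510R2.Div

set_option autoImplicit false

/-! Blocks of consecutive integers with equal prime-factor sets: elementary part. -/

open Finset

namespace Pool.Agent.Helper577Blk

open Pool.Agent.Helper577Eps (sqf_dvd pell_gap2 card_gap tail_sq Sim)

/-- `B n k = (n + 1) (n + 2) ⋯ (n + k)` -/
def B (n k : ℕ) : ℕ := ∏ i ∈ Icc 1 k, (n + i)

lemma B_pos (n k : ℕ) : 0 < B n k := Finset.prod_pos fun i hi => by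
  rw [mem_Icc] at hi; omega

/-- constants -/
def cc : ℕ → ℕ
  | 0 => 1
  | k + 1 => (∏ j ∈ Icc 1 k, (k + 1 - j)) * cc k

lemma cc_pos (k : ℕ) : 0 < cc k := by
  induction k with
  | zero => simp [cc]
  | succ k ih =>
    rw [cc]
    refine Nat.mul_pos (Finset.prod_pos fun j hj => ?_) ih
    rw [mem_Icc] at hj
    omega

lemma gcd_prod_dvd (s : Finset ℕ) (f : ℕ → ℕ) (m : ℕ) :
    Nat.gcd (∏ j ∈ s, f j) m ∣ ∏ j ∈ s, Nat.gcd (f j) m := by
  classical
  induction s using Finset.induction_on with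
  | empty => simp
  | insert a s ha ih =>
    rw [Finset.prod_insert ha, Finset.prod_insert ha]
    exact (Nat.gcd_mul_left_dvd_mul_gcd _ _ _).trans (mul_dvd_mul (dvd_refl _) ih)

lemma prod_dvd (n M : ℕ) (t : ℕ → ℕ) (k : ℕ) (h1 : ∀ i ∈ Icc 1 k, t i ∣ n + i)
    (h2 : ∀ i ∈ Icc 1 k, t i ∣ M) : ∏ i ∈ Icc 1 k, t i ∣ cc k * M := by
  induction k with
  | zero => simp
  | succ k ih =>
    have ih' := ih (fun i hi => h1 i (by rw [mem_Icc] at hi ⊢; omega))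
      (fun i hi => h2 i (by rw [mem_Icc] at hi ⊢; omega))
    rw [Finset.prod_Icc_succ_top (by omega), ← Nat.gcd_mul_lcm, cc, mul_assoc]
    refine mul_dvd_mul ?_ (Nat.lcm_dvd ih' (Dvd.dvd.mul_left (h2 _ (by rw [mem_Icc]; omega)) _))
    refine (gcd_prod_dvd _ _ _).trans (Finset.prod_dvd_prod_of_dvd _ _ fun j hj => ?_)
    rw [mem_Icc] at hj
    have e1 : Nat.gcd (t j) (t (k + 1)) ∣ n + (k + 1) :=
      (Nat.gcd_dvd_right _ _).trans (h1 _ (by rw [mem_Icc]; omega))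
    have e2 : Nat.gcd (t j) (t (k + 1)) ∣ n + j :=
      (Nat.gcd_dvd_left _ _).trans (h1 _ (by rw [mem_Icc]; omega))
    have := Nat.dvd_sub e1 e2
    have e : n + (k + 1) - (n + j) = k + 1 - j := by omega
    rwa [e] at this

lemma dvd_B {n k i : ℕ} (hi : i ∈ Icc 1 k) : n + i ∣ B n k := Finset.dvd_prod_of_mem _ hi

lemma large_square {n1 n2 k1 k2 D : ℕ} (h : Sim (B n1 k1) (B n2 k2))
    (hD : cc k1 * B n2 k2 * D ^ (2 * k1) < B n1 k1) :
    ∃ i ∈ Icc 1 k1, ∃ d : ℕ, D ≤ d ∧ d ^ 2 ∣ n1 + i := by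
  by_contra hc
  push Not at hc
  choose t d hd ht using fun i => Nat.sq_mul_squarefree (n1 + i)
  have h1 : ∀ i ∈ Icc 1 k1, t i ∣ n1 + i := fun i _ => ⟨d i ^ 2, by rw [← hd i]; ring⟩
  have h2 : ∀ i ∈ Icc 1 k1, t i ∣ B n2 k2 := fun i hi => sqf_dvd (ht i) fun p hp hpt =>
    (h p hp).1 ((hpt.trans (h1 i hi)).trans (dvd_B hi))
  have h3 := Nat.le_of_dvd (Nat.mul_pos (cc_pos k1) (B_pos n2 k2)) (prod_dvd n1 (B n2 k2) t k1 h1 h2)
  have h4 : B n1 k1 = (∏ i ∈ Icc 1 k1, t i) * (∏ i ∈ Icc 1 k1, d i) ^ 2 := by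
    unfold B
    rw [← Finset.prod_pow, ← Finset.prod_mul_distrib]
    refine Finset.prod_congr rfl fun i _ => ?_
    rw [← hd i]; ring
  have h5 : ∏ i ∈ Icc 1 k1, d i ≤ D ^ k1 := by
    have : ∏ i ∈ Icc 1 k1, d i ≤ ∏ _i ∈ Icc 1 k1, D := by
      refine Finset.prod_le_prod' fun i hi => ?_
      by_contra hlt
      push Not at hlt
      exact hc i hi (d i) hlt.le ⟨t i, (hd i).symm⟩
    simpa using this
  have h6 : B n1 k1 ≤ cc k1 * B n2 k2 * D ^ (2 * k1) := by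
    rw [h4]
    have h7 : (∏ i ∈ Icc 1 k1, d i) ^ 2 ≤ D ^ (2 * k1) := by
      calc (∏ i ∈ Icc 1 k1, d i) ^ 2 ≤ (D ^ k1) ^ 2 := Nat.pow_le_pow_left h5 2
        _ = D ^ (2 * k1) := by rw [← pow_mul]; ring_nf
    exact Nat.mul_le_mul h3 h7
  omega

lemma card_pell_fixed (m X : ℕ) (hm : 1 ≤ m) (S : Finset ℕ)
    (hS : ∀ x ∈ S, 2 ≤ x ∧ x ≤ X ∧ ∃ e : ℕ, x ^ 2 = m * e ^ 2 + 1) : S.card ≤ Nat.log 2 X + 1 := by
  refine card_gap (fun x hx => ?_) (fun x hx x' hx' hlt => ?_)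
  · have := hS x hx
    exact ⟨by omega, this.2.1⟩
  · obtain ⟨hx2, -, d, hd⟩ := hS x hx
    obtain ⟨hx2', -, d', hd'⟩ := hS x' hx'
    have hd0 : 1 ≤ d := by
      rcases Nat.eq_zero_or_pos d with h | h
      · rw [h] at hd
        have : x ^ 2 = 1 := by simpa using hd
        nlinarith
      · exact h
    have hd0' : 1 ≤ d' := by
      rcases Nat.eq_zero_or_pos d' with h | h
      · rw [h] at hd'
        have : x' ^ 2 = 1 := by simpa using hd'
        nlinarith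
      · exact h
    have e1 : (x : ℤ) ^ 2 - 1 = m * (d : ℤ) ^ 2 := by
      have : (x : ℤ) ^ 2 = m * (d : ℤ) ^ 2 + 1 := by exact_mod_cast hd
      linarith
    have e2 : (x' : ℤ) ^ 2 - 1 = m * (d' : ℤ) ^ 2 := by
      have : (x' : ℤ) ^ 2 = m * (d' : ℤ) ^ 2 + 1 := by exact_mod_cast hd'
      linarith
    have := pell_gap2 (m := m) (x := x) (e := d) (x' := x') (e' := d') (by exact_mod_cast hm)
      (by exact_mod_cast hx2) (by exact_mod_cast hd0) (by exact_mod_cast hd0') e1 e2 (by exact_mod_cast hlt)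
    exact_mod_cast this

/-- for given `M` there are few `n` such that all prime factors of `(n + 1) (n + 2)` divide `M` -/
lemma card_second (M X : ℕ) (hM : 1 ≤ M) (S : Finset ℕ)
    (hS : ∀ n ∈ S, n ≤ X ∧ ∀ p : ℕ, p.Prime → p ∣ (n + 1) * (n + 2) → p ∣ M) :
    S.card ≤ M.divisors.card ^ 2 * (Nat.log 2 (2 * X + 3) + 1) := by
  classical
  have h1 : S ⊆ (M.divisors ×ˢ M.divisors).biUnion (fun q => S.filter (fun n => ∃ e : ℕ,
      (2 * n + 3) ^ 2 = q.1 * q.2 * e ^ 2 + 1)) := by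
    intro n hn
    obtain ⟨-, hp⟩ := hS n hn
    obtain ⟨t, d, e1, q1⟩ := Nat.sq_mul_squarefree (n + 1)
    obtain ⟨t', d', e2, q2⟩ := Nat.sq_mul_squarefree (n + 2)
    have g1 : t ∣ M := sqf_dvd q1 fun p hpp hpt => hp p hpp
      (Dvd.dvd.mul_right (hpt.trans ⟨d ^ 2, by rw [← e1]; ring⟩) _)
    have g2 : t' ∣ M := sqf_dvd q2 fun p hpp hpt => hp p hpp
      (Dvd.dvd.mul_left (hpt.trans ⟨d' ^ 2, by rw [← e2]; ring⟩) _)
    rw [mem_biUnion]
    refine ⟨(t, t'), mem_product.2 ⟨Nat.mem_divisors.2 ⟨g1, by omega⟩, Nat.mem_divisors.2 ⟨g2, by omega⟩⟩, ?_⟩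
    rw [mem_filter]
    refine ⟨hn, 2 * (d * d'), ?_⟩
    have : t * t' * (2 * (d * d')) ^ 2 = 4 * ((n + 1) * (n + 2)) := by rw [← e1, ← e2]; ring
    rw [this]; ring
  refine (Finset.card_le_card h1).trans (Finset.card_biUnion_le.trans ?_)
  have h2 : ∀ q ∈ M.divisors ×ˢ M.divisors, (S.filter (fun n => ∃ e : ℕ,
      (2 * n + 3) ^ 2 = q.1 * q.2 * e ^ 2 + 1)).card ≤ Nat.log 2 (2 * X + 3) + 1 := by
    intro q hq
    rw [mem_product, Nat.mem_divisors, Nat.mem_divisors] at hq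
    have q1 : 1 ≤ q.1 := Nat.pos_of_dvd_of_pos hq.1.1 hM
    have q2 : 1 ≤ q.2 := Nat.pos_of_dvd_of_pos hq.2.1 hM
    rw [← Finset.card_image_of_injective _ (show Function.Injective (fun n : ℕ => 2 * n + 3) from by
      intro a b hab; simp only at hab; omega)]
    refine card_pell_fixed (q.1 * q.2) (2 * X + 3) (Nat.mul_pos q1 q2) _ fun x hx => ?_
    rw [mem_image] at hx
    obtain ⟨n, hn, rfl⟩ := hx
    rw [mem_filter] at hn
    have := (hS n hn.1).1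
    exact ⟨by omega, by omega, hn.2⟩
  refine (Finset.sum_le_sum h2).trans (le_of_eq ?_)
  rw [Finset.sum_const, Finset.card_product, smul_eq_mul, sq]

/-- integers `n ≤ X` such that some `n + i`, `1 ≤ i ≤ k`, has a square divisor `d ^ 2`, `d ≥ D` -/
lemma card_square (k D X : ℕ) (hD : 1 ≤ D) (S : Finset ℕ)
    (hS : ∀ n ∈ S, n ≤ X ∧ ∃ i ∈ Icc 1 k, ∃ d : ℕ, D ≤ d ∧ d ^ 2 ∣ n + i) :
    (S.card : ℝ) ≤ k * (((X : ℝ) + k) * (2 / (D : ℝ))) := by
  classical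
  have h1 : S ⊆ (Icc 1 k).biUnion (fun i => (Icc D (X + k)).biUnion (fun d => S.filter (fun n => d ^ 2 ∣ n + i))) := by
    intro n hn
    obtain ⟨hnX, i, hi, d, hDd, hd⟩ := hS n hn
    rw [mem_biUnion]
    refine ⟨i, hi, ?_⟩
    rw [mem_biUnion]
    rw [mem_Icc] at hi
    refine ⟨d, mem_Icc.2 ⟨hDd, ?_⟩, mem_filter.2 ⟨hn, hd⟩⟩
    have h2 := Nat.le_of_dvd (by omega) hd
    nlinarith
  have h2 : (S.card : ℝ) ≤ ∑ i ∈ Icc 1 k, ∑ d ∈ Icc D (X + k), ((S.filter (fun n => d ^ 2 ∣ n + i)).card : ℝ) := by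
    have h3 := (Finset.card_le_card h1).trans (Finset.card_biUnion_le.trans
      (Finset.sum_le_sum fun i _ => Finset.card_biUnion_le))
    exact_mod_cast h3
  refine h2.trans ?_
  have h4 : ∀ i ∈ Icc 1 k, ∑ d ∈ Icc D (X + k), ((S.filter (fun n => d ^ 2 ∣ n + i)).card : ℝ) ≤
      ((X : ℝ) + k) * (2 / (D : ℝ)) := by
    intro i hi
    rw [mem_Icc] at hi
    have h5 : ∀ d ∈ Icc D (X + k), ((S.filter (fun n => d ^ 2 ∣ n + i)).card : ℝ) ≤
        ((X : ℝ) + k) * (1 / (d : ℝ) ^ 2) := by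
      intro d hd
      rw [mem_Icc] at hd
      have h6 : (S.filter (fun n => d ^ 2 ∣ n + i)).card ≤ ((Ioc 0 (X + k)).filter (fun m => d ^ 2 ∣ m)).card := by
        refine Finset.card_le_card_of_injOn (fun n => n + i) ?_ ?_
        · intro n hn
          rw [mem_coe, mem_filter] at hn
          have := (hS n hn.1).1
          rw [mem_coe, mem_filter, mem_Ioc]
          refine ⟨?_, hn.2⟩
          change 0 < n + i ∧ n + i ≤ X + k
          omega
        · intro a _ b _ hab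
          simp only at hab
          omega
      rw [Nat.Ioc_filter_dvd_card_eq_div] at h6
      have h7 : (((X + k) / d ^ 2 : ℕ) : ℝ) ≤ ((X + k : ℕ) : ℝ) / ((d ^ 2 : ℕ) : ℝ) := Nat.cast_div_le
      have h8 : ((S.filter (fun n => d ^ 2 ∣ n + i)).card : ℝ) ≤ (((X + k) / d ^ 2 : ℕ) : ℝ) := by exact_mod_cast h6
      refine (h8.trans h7).trans (le_of_eq ?_)
      push_cast
      ring
    refine (Finset.sum_le_sum h5).trans ?_
    rw [← Finset.mul_sum]
    have h9 : ∑ d ∈ Icc D (X + k), 1 / (d : ℝ) ^ 2 ≤ 2 / (D : ℝ) := by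
      by_cases hK : D ≤ X + k + 1
      · have h10 := tail_sq D hD (X + k) hK
        have h11 : 0 ≤ 2 / ((X + k + 1 : ℕ) : ℝ) := by positivity
        linarith
      · rw [Finset.Icc_eq_empty (by omega)]
        simp
        positivity
    have : (0 : ℝ) ≤ (X : ℝ) + k := by positivity
    gcongr
  refine (Finset.sum_le_sum h4).trans (le_of_eq ?_)
  rw [Finset.sum_const, nsmul_eq_mul]
  simp

end Pool.Agent.Helper577Blk
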