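import Pool.Agent.helper577_blk.Main

set_option autoImplicit false

open Finset

namespace Pool.Agent.Helper577Blk

open Pool.Agent.Helper577Eps (Sim sqf_dvd)

lemma B_mono {M N : ℕ} (k : ℕ) (h : M ≤ N) : B M k ≤ B N k :=
  Finset.prod_le_prod' fun i _ => by omega

lemma B_strict {M N : ℕ} (k : ℕ) (hk : 1 ≤ k) (h : M < N) : B M k < B N k := by
  unfold B
  refine Finset.prod_lt_prod_of_nonempty (fun i hi => ?_) (fun i hi => ?_) ⟨1, by rw [mem_Icc]; omega⟩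
  · rw [mem_Icc] at hi; omega
  · omega

lemma B_first {M N : ℕ} (h : M ≤ N) (k : ℕ) : (N + 1) * B M (k + 1) ≤ (M + 1) * B N (k + 1) := by
  induction k with
  | zero => simp [B]; nlinarith
  | succ k ih =>
    have e1 : B M (k + 1 + 1) = B M (k + 1) * (M + (k + 1 + 1)) := by
      unfold B; rw [Finset.prod_Icc_succ_top (by omega)]
    have e2 : B N (k + 1 + 1) = B N (k + 1) * (N + (k + 1 + 1)) := by
      unfold B; rw [Finset.prod_Icc_succ_top (by omega)]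
    rw [e1, e2, ← mul_assoc, ← mul_assoc]
    exact Nat.mul_le_mul ih (by omega)

lemma diag_ratio {M N k D : ℕ} (hk : 1 ≤ k) (h : Sim (B M k) (B N k)) (hlt : M < N)
    (hD : ∀ i ∈ Icc 1 k, ∀ d : ℕ, d ^ 2 ∣ N + i → d ≤ D) :
    ∃ a w : ℕ, 1 ≤ w ∧ w < a ∧ a ≤ cc k * D ^ (2 * k) ∧ w * B N k = a * B M k := by
  choose t d hd ht using fun i => Nat.sq_mul_squarefree (N + i)
  have h1 : ∀ i ∈ Icc 1 k, t i ∣ N + i := fun i _ => ⟨d i ^ 2, by rw [← hd i]; ring⟩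
  have h2 : ∀ i ∈ Icc 1 k, t i ∣ B M k := fun i hi => sqf_dvd (ht i) fun p hp hpt =>
    (h p hp).2 ((hpt.trans (h1 i hi)).trans (dvd_B hi))
  obtain ⟨w, hw⟩ := prod_dvd N (B M k) t k h1 h2
  have h4 : B N k = (∏ i ∈ Icc 1 k, t i) * (∏ i ∈ Icc 1 k, d i) ^ 2 := by
    conv_lhs => unfold B
    rw [← Finset.prod_pow, ← Finset.prod_mul_distrib]
    refine Finset.prod_congr rfl fun i _ => ?_
    rw [← hd i]; ring
  have h5 : ∏ i ∈ Icc 1 k, d i ≤ D ^ k := by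
    have : ∏ i ∈ Icc 1 k, d i ≤ ∏ _i ∈ Icc 1 k, D := by
      refine Finset.prod_le_prod' fun i hi => hD i hi (d i) ⟨t i, (hd i).symm⟩
    simpa using this
  have heq : w * B N k = cc k * (∏ i ∈ Icc 1 k, d i) ^ 2 * B M k := by
    rw [h4]
    calc w * ((∏ i ∈ Icc 1 k, t i) * (∏ i ∈ Icc 1 k, d i) ^ 2)
        = ((∏ i ∈ Icc 1 k, t i) * w) * (∏ i ∈ Icc 1 k, d i) ^ 2 := by ring
      _ = _ := by rw [← hw]; ring
  have hBM := B_pos M k
  have hBN := B_pos N k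
  have hw0 : 1 ≤ w := by
    rcases Nat.eq_zero_or_pos w with h0 | h0
    · rw [h0, mul_zero] at hw
      have := Nat.mul_pos (cc_pos k) hBM
      omega
    · exact h0
  refine ⟨cc k * (∏ i ∈ Icc 1 k, d i) ^ 2, w, hw0, ?_, ?_, heq⟩
  · have h6 := B_strict k hk hlt
    by_contra hc
    push Not at hc
    have h7 : cc k * (∏ i ∈ Icc 1 k, d i) ^ 2 * B M k < w * B N k := by
      calc cc k * (∏ i ∈ Icc 1 k, d i) ^ 2 * B M k ≤ w * B M k := Nat.mul_le_mul_right _ hc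
        _ < w * B N k := Nat.mul_lt_mul_of_pos_left h6 hw0
    omega
  · refine Nat.mul_le_mul_left _ ?_
    calc (∏ i ∈ Icc 1 k, d i) ^ 2 ≤ (D ^ k) ^ 2 := Nat.pow_le_pow_left h5 2
      _ = D ^ (2 * k) := by rw [← pow_mul]; ring_nf

/-- `(2 ^ k B (n, k)) ^ 2` as a product of `(2 n + k + 1) ^ 2 - c_i ^ 2` -/
lemma B_sq (n k : ℕ) : ((2 : ℤ) ^ k * (B n k : ℤ)) ^ 2 =
    ∏ i ∈ Icc 1 k, ((2 * (n : ℤ) + k + 1) ^ 2 - (2 * (i : ℤ) - k - 1) ^ 2) := by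
  have h1 : (2 : ℤ) ^ k * (B n k : ℤ) = ∏ i ∈ Icc 1 k, (2 * (n : ℤ) + 2 * i) := by
    unfold B
    push_cast
    have : (2 : ℤ) ^ k = ∏ _i ∈ Icc 1 k, (2 : ℤ) := by simp
    rw [this, ← Finset.prod_mul_distrib]
    refine Finset.prod_congr rfl fun i _ => by ring
  have h2 : ∏ i ∈ Icc 1 k, (2 * (n : ℤ) + 2 * i) = ∏ i ∈ Icc 1 k, (2 * (n : ℤ) + 2 * (k + 1 - i)) := by
    refine Finset.prod_nbij' (fun i => k + 1 - i) (fun i => k + 1 - i) ?_ ?_ ?_ ?_ ?_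
    · intro i hi; rw [mem_Icc] at hi ⊢; omega
    · intro i hi; rw [mem_Icc] at hi ⊢; omega
    · intro i hi; rw [mem_Icc] at hi; omega
    · intro i hi; rw [mem_Icc] at hi; omega
    · intro i hi
      rw [mem_Icc] at hi
      have : ((k + 1 - i : ℕ) : ℤ) = (k : ℤ) + 1 - i := by
        rw [Nat.cast_sub (by omega)]; push_cast; ring
      rw [this]; ring
  rw [h1, sq]
  nth_rewrite 2 [h2]
  rw [← Finset.prod_mul_distrib]
  refine Finset.prod_congr rfl fun i _ => by ring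

lemma gap_core {k : ℕ} (hk : 2 ≤ k) (c : ℕ → ℤ) (hck : ∀ i ∈ Icc 1 k, (c i) ^ 2 ≤ ((k : ℤ) - 1) ^ 2)
    (hc1 : 0 < (c 1) ^ 2) {x y x' y' : ℤ} (hxk : (k : ℤ) + 1 ≤ x) (hxy : x < y)
    (hyy' : y < y') (hxx' : x ≤ x')
    (hFG : ∏ i ∈ Icc 1 k, ((x ^ 2 - (c i) ^ 2) * (y' ^ 2 - (c i) ^ 2)) =
      ∏ i ∈ Icc 1 k, ((x' ^ 2 - (c i) ^ 2) * (y ^ 2 - (c i) ^ 2))) :
    2 * (x' * y) < (k : ℤ) ^ 2 * (y' ^ 2 - y ^ 2) := by
  have hkz : (2 : ℤ) ≤ k := by exact_mod_cast hk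
  have hx0 : 0 < x := by linarith
  have hx'0 : 0 < x' := by linarith
  have hy0 : 0 < y := by linarith
  have hy'0 : 0 < y' := by linarith
  have sq1 : ((k : ℤ) - 1) ^ 2 < x ^ 2 := pow_lt_pow_left₀ (by linarith) (by linarith) (by norm_num)
  have sq2 : x ^ 2 < y ^ 2 := pow_lt_pow_left₀ hxy hx0.le (by norm_num)
  have sq3 : y ^ 2 < y' ^ 2 := pow_lt_pow_left₀ hyy' hy0.le (by norm_num)
  have sq4 : x ^ 2 ≤ x' ^ 2 := pow_le_pow_left₀ hx0.le hxx' 2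
  have hcx : ∀ i ∈ Icc 1 k, 0 < x ^ 2 - (c i) ^ 2 := by
    intro i hi
    have := hck i hi
    linarith
  have hcy : ∀ i ∈ Icc 1 k, 0 < y ^ 2 - (c i) ^ 2 := by
    intro i hi
    have := hck i hi
    linarith
  have hcx' : ∀ i ∈ Icc 1 k, 0 < x' ^ 2 - (c i) ^ 2 := by
    intro i hi
    have := hck i hi
    linarith
  have hcy' : ∀ i ∈ Icc 1 k, 0 < y' ^ 2 - (c i) ^ 2 := by
    intro i hi
    have := hck i hi
    linarith
  have hFpos : ∀ i ∈ Icc 1 k, 0 < (x ^ 2 - (c i) ^ 2) * (y' ^ 2 - (c i) ^ 2) := fun i hi =>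
    mul_pos (hcx i hi) (hcy' i hi)
  have hGpos : ∀ i ∈ Icc 1 k, 0 < (x' ^ 2 - (c i) ^ 2) * (y ^ 2 - (c i) ^ 2) := fun i hi =>
    mul_pos (hcx' i hi) (hcy i hi)
  have h1k : 1 ∈ Icc 1 k := by rw [mem_Icc]; omega
  -- `V > 0`
  have hV : 0 < (y' ^ 2 - y ^ 2) - (x' ^ 2 - x ^ 2) := by
    by_contra hcon
    push Not at hcon
    have key : ∀ i ∈ Icc 1 k, (x ^ 2 - (c i) ^ 2) * (y' ^ 2 - (c i) ^ 2) <
        (x' ^ 2 - (c i) ^ 2) * (y ^ 2 - (c i) ^ 2) := by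
      intro i hi
      have e1 := hcx i hi
      have e2 := hcy i hi
      have e5 : (x ^ 2 - (c i) ^ 2) * (y' ^ 2 - y ^ 2) < (y ^ 2 - (c i) ^ 2) * (y' ^ 2 - y ^ 2) :=
        mul_lt_mul_of_pos_right (by linarith) (by linarith)
      have e6 : (y ^ 2 - (c i) ^ 2) * (y' ^ 2 - y ^ 2) ≤ (y ^ 2 - (c i) ^ 2) * (x' ^ 2 - x ^ 2) :=
        mul_le_mul_of_nonneg_left (by linarith) e2.le
      have e7 : (x ^ 2 - (c i) ^ 2) * (y' ^ 2 - (c i) ^ 2) =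
        (x ^ 2 - (c i) ^ 2) * (y ^ 2 - (c i) ^ 2) + (x ^ 2 - (c i) ^ 2) * (y' ^ 2 - y ^ 2) := by ring
      have e8 : (x' ^ 2 - (c i) ^ 2) * (y ^ 2 - (c i) ^ 2) =
        (x ^ 2 - (c i) ^ 2) * (y ^ 2 - (c i) ^ 2) + (y ^ 2 - (c i) ^ 2) * (x' ^ 2 - x ^ 2) := by ring
      rw [e7, e8]
      linarith
    have := Finset.prod_lt_prod hFpos (fun i hi => (key i hi).le) ⟨1, h1k, key 1 h1k⟩
    rw [hFG] at this
    exact lt_irrefl _ this
  have hdiff : ∀ i, (x ^ 2 - (c i) ^ 2) * (y' ^ 2 - (c i) ^ 2) - (x' ^ 2 - (c i) ^ 2) * (y ^ 2 - (c i) ^ 2) =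
      ((x * y') ^ 2 - (x' * y) ^ 2) - (c i) ^ 2 * ((y' ^ 2 - y ^ 2) - (x' ^ 2 - x ^ 2)) := fun i => by ring
  have hA : x' * y < x * y' := by
    by_contra hcon
    push Not at hcon
    have e0 : (x * y') ^ 2 ≤ (x' * y) ^ 2 := pow_le_pow_left₀ (by positivity) hcon 2
    have key : ∀ i ∈ Icc 1 k, (x ^ 2 - (c i) ^ 2) * (y' ^ 2 - (c i) ^ 2) ≤
        (x' ^ 2 - (c i) ^ 2) * (y ^ 2 - (c i) ^ 2) := by
      intro i hi
      have e1 := hdiff i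
      have e2 : 0 ≤ (c i) ^ 2 * ((y' ^ 2 - y ^ 2) - (x' ^ 2 - x ^ 2)) := mul_nonneg (sq_nonneg _) hV.le
      linarith
    have key1 : (x ^ 2 - (c 1) ^ 2) * (y' ^ 2 - (c 1) ^ 2) < (x' ^ 2 - (c 1) ^ 2) * (y ^ 2 - (c 1) ^ 2) := by
      have e1 := hdiff 1
      have e2 : 0 < (c 1) ^ 2 * ((y' ^ 2 - y ^ 2) - (x' ^ 2 - x ^ 2)) := mul_pos hc1 hV
      linarith
    have := Finset.prod_lt_prod hFpos key ⟨1, h1k, key1⟩
    rw [hFG] at this
    exact lt_irrefl _ this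
  have hC : ∃ i ∈ Icc 1 k, (x * y') ^ 2 - (x' * y) ^ 2 ≤ (c i) ^ 2 * ((y' ^ 2 - y ^ 2) - (x' ^ 2 - x ^ 2)) := by
    by_contra hcon
    push Not at hcon
    have key : ∀ i ∈ Icc 1 k, (x' ^ 2 - (c i) ^ 2) * (y ^ 2 - (c i) ^ 2) <
        (x ^ 2 - (c i) ^ 2) * (y' ^ 2 - (c i) ^ 2) := by
      intro i hi
      have e1 := hdiff i
      have e2 := hcon i hi
      linarith
    have := Finset.prod_lt_prod hGpos (fun i hi => (key i hi).le) ⟨1, h1k, key 1 h1k⟩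
    rw [hFG] at this
    exact lt_irrefl _ this
  obtain ⟨i, hi, hCi⟩ := hC
  have m1 : 2 * (x' * y) < (x * y') ^ 2 - (x' * y) ^ 2 := by
    have e1 : x' * y + 1 ≤ x * y' := hA
    have e2 : 0 < x' * y := by positivity
    have e3 : (x' * y + 1) ^ 2 ≤ (x * y') ^ 2 := pow_le_pow_left₀ (by positivity) e1 2
    have e4 : (x' * y + 1) ^ 2 = (x' * y) ^ 2 + 2 * (x' * y) + 1 := by ring
    linarith
  have m2 : (c i) ^ 2 * ((y' ^ 2 - y ^ 2) - (x' ^ 2 - x ^ 2)) ≤ (k : ℤ) ^ 2 * (y' ^ 2 - y ^ 2) := by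
    have e1 : (c i) ^ 2 ≤ (k : ℤ) ^ 2 := (hck i hi).trans
      (pow_le_pow_left₀ (by linarith) (by linarith) 2)
    have e2 : (y' ^ 2 - y ^ 2) - (x' ^ 2 - x ^ 2) ≤ y' ^ 2 - y ^ 2 := by linarith
    exact mul_le_mul e1 e2 hV.le (by positivity)
  linarith

lemma hFG_of {k M N M' N' : ℕ} (hprod : B M k * B N' k = B M' k * B N k) :
    ∏ i ∈ Icc 1 k, (((2 * (M : ℤ) + k + 1) ^ 2 - (2 * (i : ℤ) - k - 1) ^ 2) *
      ((2 * (N' : ℤ) + k + 1) ^ 2 - (2 * (i : ℤ) - k - 1) ^ 2)) =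
    ∏ i ∈ Icc 1 k, (((2 * (M' : ℤ) + k + 1) ^ 2 - (2 * (i : ℤ) - k - 1) ^ 2) *
      ((2 * (N : ℤ) + k + 1) ^ 2 - (2 * (i : ℤ) - k - 1) ^ 2)) := by
  rw [Finset.prod_mul_distrib, Finset.prod_mul_distrib, ← B_sq M k, ← B_sq N k, ← B_sq M' k, ← B_sq N' k]
  have : ((B M k : ℤ)) * (B N' k : ℤ) = (B M' k : ℤ) * (B N k : ℤ) := by exact_mod_cast hprod
  rw [← mul_pow, ← mul_pow]
  congr 1
  calc (2 : ℤ) ^ k * (B M k : ℤ) * ((2 : ℤ) ^ k * (B N' k : ℤ))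
      = (2 : ℤ) ^ k * (2 : ℤ) ^ k * ((B M k : ℤ) * (B N' k : ℤ)) := by ring
    _ = (2 : ℤ) ^ k * (2 : ℤ) ^ k * ((B M' k : ℤ) * (B N k : ℤ)) := by rw [this]
    _ = _ := by ring

/-- two solutions of `w B (N, k) = a B (M, k)` are far apart -/
lemma gap {k M N M' N' a w U : ℕ} (hk : 2 ≤ k) (hMN : M < N) (hMN' : M' < N') (hNN : N < N')
    (h1 : w * B N k = a * B M k) (h2 : w * B N' k = a * B M' k) (hw : 1 ≤ w) (ha : a ≤ U) :
    N < U * k ^ 2 * (N' - N) := by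
  have pM := B_pos M k
  have pN := B_pos N k
  have pM' := B_pos M' k
  have pN' := B_pos N' k
  have ha0 : 1 ≤ a := by
    rcases Nat.eq_zero_or_pos a with h0 | h0
    · rw [h0, zero_mul] at h1
      have := Nat.mul_pos hw pN
      omega
    · exact h0
  -- `M ≤ M'`
  have hMM : M ≤ M' := by
    by_contra hc
    push Not at hc
    have e1 := B_strict k (by omega) hNN
    have e2 := B_mono k hc.le
    have e3 : w * B N k < w * B N' k := Nat.mul_lt_mul_of_pos_left e1 hw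
    have e4 : a * B M' k ≤ a * B M k := Nat.mul_le_mul_left _ e2
    omega
  -- the product identity
  have hprod : B M k * B N' k = B M' k * B N k := by
    have : (a * w) * (B M k * B N' k) = (a * w) * (B M' k * B N k) := by
      calc (a * w) * (B M k * B N' k) = (a * B M k) * (w * B N' k) := by ring
        _ = (w * B N k) * (a * B M' k) := by rw [← h1, h2]
        _ = (a * w) * (B M' k * B N k) := by ring
    exact Nat.eq_of_mul_eq_mul_left (Nat.mul_pos ha0 hw) this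
  have hFG := hFG_of hprod
  have hkz : (2 : ℤ) ≤ k := by exact_mod_cast hk
  have hMz : (0 : ℤ) ≤ M := by positivity
  have hMM'z : (M : ℤ) ≤ M' := by exact_mod_cast hMM
  have hMNz : (M : ℤ) + 1 ≤ N := by exact_mod_cast hMN
  have hMNz' : (M' : ℤ) + 1 ≤ N' := by exact_mod_cast hMN'
  have hNNz : (N : ℤ) + 1 ≤ N' := by exact_mod_cast hNN
  have core := gap_core hk (fun i => 2 * (i : ℤ) - k - 1) (by
    intro i hi
    rw [mem_Icc] at hi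
    have e1 : (1 : ℤ) ≤ i := by exact_mod_cast hi.1
    have e2 : (i : ℤ) ≤ k := by exact_mod_cast hi.2
    apply sq_le_sq'
    · linarith
    · linarith) (by
    apply sq_pos_of_neg
    push_cast
    linarith) (x := 2 * (M : ℤ) + k + 1) (y := 2 * (N : ℤ) + k + 1) (x' := 2 * (M' : ℤ) + k + 1)
    (y' := 2 * (N' : ℤ) + k + 1) (by linarith) (by linarith) (by linarith) (by linarith) hFG
  clear hFG
  -- `y' ≤ U x'`
  have e1 : (N' + 1) * B M' k ≤ (M' + 1) * B N' k := by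
    obtain ⟨k', rfl⟩ : ∃ k', k = k' + 1 := ⟨k - 1, by omega⟩
    exact B_first hMN'.le k'
  have e2 : B N' k ≤ U * B M' k := by
    calc B N' k ≤ w * B N' k := Nat.le_mul_of_pos_left _ hw
      _ = a * B M' k := h2
      _ ≤ U * B M' k := Nat.mul_le_mul_right _ ha
  have e3 : (N' + 1) * B M' k ≤ ((M' + 1) * U) * B M' k := by
    calc (N' + 1) * B M' k ≤ (M' + 1) * B N' k := e1
      _ ≤ (M' + 1) * (U * B M' k) := Nat.mul_le_mul_left _ e2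
      _ = ((M' + 1) * U) * B M' k := by ring
  have e4 : N' + 1 ≤ (M' + 1) * U := Nat.le_of_mul_le_mul_right e3 pM'
  have e5 : ((N' : ℤ) + 1) ≤ ((M' : ℤ) + 1) * U := by exact_mod_cast e4
  have e6 : (1 : ℤ) ≤ U := by exact_mod_cast ha0.trans ha
  have hM'z : (0 : ℤ) ≤ M' := by positivity
  clear e1 e2 e3 e4 pM pN pM' pN' hprod h1 h2
  set x' : ℤ := 2 * (M' : ℤ) + k + 1 with hx'
  set y : ℤ := 2 * (N : ℤ) + k + 1 with hy
  set y' : ℤ := 2 * (N' : ℤ) + k + 1 with hy'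
  have hx'0 : 0 < x' := by rw [hx']; linarith
  have hyy' : y < y' := by rw [hy, hy']; linarith
  have m3 : y' ≤ U * x' := by
    have : 0 ≤ ((k : ℤ) - 1) * ((U : ℤ) - 1) := mul_nonneg (by linarith) (by linarith)
    have e7 : (U : ℤ) * x' = 2 * (((M' : ℤ) + 1) * U) + ((k : ℤ) - 1) * ((U : ℤ) - 1) + (k - 1) := by
      rw [hx']; ring
    rw [e7, hy']
    linarith
  have m4 : (k : ℤ) ^ 2 * (y' ^ 2 - y ^ 2) ≤ (2 * x') * ((U : ℤ) * k ^ 2 * (y' - y)) := by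
    have e8 : y' + y ≤ 2 * (U * x') := by linarith
    have e9 : 0 ≤ y' - y := by linarith
    calc (k : ℤ) ^ 2 * (y' ^ 2 - y ^ 2) = (k : ℤ) ^ 2 * ((y' - y) * (y' + y)) := by ring
      _ ≤ (k : ℤ) ^ 2 * ((y' - y) * (2 * (U * x'))) := by gcongr
      _ = _ := by ring
  have m5 : y < (U : ℤ) * k ^ 2 * (y' - y) := by
    have e10 : (2 * x') * y < (2 * x') * ((U : ℤ) * k ^ 2 * (y' - y)) := by
      have e11 : (2 * x') * y = 2 * (x' * y) := by ring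
      rw [e11]
      exact lt_of_lt_of_le core m4
    exact lt_of_mul_lt_mul_left e10 (by positivity)
  have m6 : (N : ℤ) < (U : ℤ) * k ^ 2 * ((N' : ℤ) - N) := by
    have e12 : (U : ℤ) * k ^ 2 * (y' - y) = 2 * ((U : ℤ) * k ^ 2 * ((N' : ℤ) - N)) := by rw [hy, hy']; ring
    rw [e12, hy] at m5
    linarith
  have e7 : ((N' - N : ℕ) : ℤ) = (N' : ℤ) - N := by rw [Nat.cast_sub hNN.le]
  have m7 : (N : ℤ) < (U : ℤ) * k ^ 2 * ((N' - N : ℕ) : ℤ) := by rw [e7]; exact m6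
  exact_mod_cast m7

/-- spacing -/
lemma card_spaced (X : ℕ) (γ : ℝ) (hγ : 0 < γ) (S : Finset ℕ) (hS : ∀ n ∈ S, n ≤ X)
    (hgap : ∀ n ∈ S, ∀ n' ∈ S, n < n' → γ ≤ (n' : ℝ) - n) : (S.card : ℝ) ≤ X / γ + 1 := by
  classical
  have h1 : S.card ≤ (range (⌊(X : ℝ) / γ⌋₊ + 1)).card := by
    refine Finset.card_le_card_of_injOn (fun n => ⌊(n : ℝ) / γ⌋₊) ?_ ?_
    · intro n hn
      have e1 : (n : ℝ) ≤ X := by exact_mod_cast hS n hn
      simp only [coe_range, Set.mem_Iio]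
      refine Nat.lt_succ_of_le (Nat.floor_le_floor ?_)
      gcongr
    · intro n hn n' hn' heq
      simp only at heq
      have key : ∀ a ∈ S, ∀ b ∈ S, a < b → ⌊(a : ℝ) / γ⌋₊ < ⌊(b : ℝ) / γ⌋₊ := by
        intro a ha b hb hab
        have e1 := hgap a ha b hb hab
        have e2 : (a : ℝ) / γ + 1 ≤ (b : ℝ) / γ := by
          rw [div_add_one hγ.ne']
          gcongr
          linarith
        have e3 : ⌊(a : ℝ) / γ + 1⌋₊ = ⌊(a : ℝ) / γ⌋₊ + 1 := Nat.floor_add_one (by positivity)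
        have e4 := Nat.floor_le_floor e2
        omega
      rcases lt_trichotomy n n' with h | h | h
      · have := key n hn n' hn' h; omega
      · exact h
      · have := key n' hn' n hn h; omega
  rw [card_range] at h1
  have h2 : (⌊(X : ℝ) / γ⌋₊ : ℝ) ≤ X / γ := Nat.floor_le (by positivity)
  have h3 : (S.card : ℝ) ≤ ⌊(X : ℝ) / γ⌋₊ + 1 := by exact_mod_cast h1
  linarith

end Pool.Agent.Helper577Blk
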