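import Pool.Agent.helper577_blk.Diag

set_option autoImplicit false

open Finset

namespace Pool.Agent.Helper577Blk

open Pool.Agent.Helper577Eps (Sim sqf_dvd)

open Classical in
/-- second members of pairs for equal lengths -/
noncomputable def GG (k X : ℕ) : Finset ℕ :=
  (range (X + 1)).filter (fun n2 => ∃ n1 : ℕ, n1 + k ≤ n2 ∧ Sim (B n1 k) (B n2 k))

lemma GG_card (k : ℕ) (hk : 2 ≤ k) : ∃ K : ℝ, 0 < K ∧ ∀ X : ℕ, k ≤ X →
    ((GG k X).card : ℝ) ≤ K * (X : ℝ) ^ (1 - 1 / (6 * (k : ℝ) + 2)) := by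
  classical
  have hk0 : 0 < k := by omega
  have hkr : (2 : ℝ) ≤ k := by exact_mod_cast hk
  set η : ℝ := 1 / (6 * (k : ℝ) + 2) with hη
  have hη0 : 0 < η := by positivity
  have hη1 : η ≤ 1 := by
    rw [hη, div_le_one (by positivity)]
    linarith
  set K0 : ℝ := (cc k : ℝ) * 4 ^ k with hK0
  have hcc : (1 : ℝ) ≤ cc k := by exact_mod_cast cc_pos k
  have hK0p : 0 < K0 := by positivity
  refine ⟨2 + 4 * k + 2 * k ^ 2 * K0 ^ 3, by positivity, fun X hX => ?_⟩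
  have hX0 : 0 < X := by omega
  have hX0r : (0 : ℝ) < X := by exact_mod_cast hX0
  have hX1r : (1 : ℝ) ≤ X := by exact_mod_cast hX0
  set Y : ℝ := (X : ℝ) ^ η with hY
  have hY1 : 1 ≤ Y := Real.one_le_rpow hX1r hη0.le
  set y0 : ℝ := (X : ℝ) ^ (1 - η) with hy0
  have hy01 : 1 ≤ y0 := Real.one_le_rpow hX1r (by linarith)
  have hyY : y0 = X / Y := by rw [hy0, Real.rpow_sub hX0r, Real.rpow_one]
  have hXy : (X : ℝ) / y0 = Y := by
    rw [hyY]
    field_simp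
  set D := ⌈Y⌉₊ with hD
  have hD1 : Y ≤ D := Nat.le_ceil _
  have hD2 : (D : ℝ) ≤ 2 * Y := by
    have := Nat.ceil_lt_add_one (show 0 ≤ Y by positivity)
    rw [← hD] at this
    linarith
  have hD0 : 1 ≤ D := by
    have : (1 : ℝ) ≤ D := hY1.trans hD1
    exact_mod_cast this
  set U : ℕ := cc k * D ^ (2 * k) with hU
  have hU0 : 1 ≤ U := Nat.mul_pos (cc_pos k) (Nat.pow_pos hD0)
  have hU0r : (1 : ℝ) ≤ U := by exact_mod_cast hU0
  have hU1 : (U : ℝ) ≤ K0 * Y ^ (2 * k) := by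
    rw [hU, hK0]
    push_cast
    have : (D : ℝ) ^ (2 * k) ≤ 4 ^ k * Y ^ (2 * k) := by
      calc (D : ℝ) ^ (2 * k) ≤ (2 * Y) ^ (2 * k) := by gcongr
        _ = 4 ^ k * Y ^ (2 * k) := by rw [mul_pow, pow_mul]; norm_num
    calc (cc k : ℝ) * (D : ℝ) ^ (2 * k) ≤ cc k * (4 ^ k * Y ^ (2 * k)) := by gcongr
      _ = _ := by ring
  have hYpow : (Y ^ (2 * k)) ^ 3 * Y = y0 := by
    rw [← pow_mul, ← pow_succ, hY, ← Real.rpow_natCast, ← Real.rpow_mul hX0r.le, hy0]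
    congr 1
    push_cast
    rw [hη]
    field_simp
    ring
  set G1 := (range (X + 1)).filter (fun n : ℕ => (n : ℝ) ≤ y0) with hG1
  set G2 := (range (X + 1)).filter (fun n => ∃ i ∈ Icc 1 k, ∃ d : ℕ, D ≤ d ∧ d ^ 2 ∣ n + i) with hG2
  set S : ℕ × ℕ → Finset ℕ := fun q => (range (X + 1)).filter (fun n : ℕ => y0 < n ∧
    ∃ m : ℕ, m < n ∧ q.2 * B n k = q.1 * B m k) with hS
  set G3 := (Icc 1 U ×ˢ Icc 1 U).biUnion S with hG3
  have hsub : GG k X ⊆ G1 ∪ G2 ∪ G3 := by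
    intro n hn
    unfold GG at hn
    rw [mem_filter] at hn
    obtain ⟨hnX, m, hmn, hsim⟩ := hn
    rw [mem_union, mem_union]
    by_cases c1 : (n : ℝ) ≤ y0
    · left; left; rw [hG1, mem_filter]; exact ⟨hnX, c1⟩
    by_cases c2 : ∃ i ∈ Icc 1 k, ∃ d : ℕ, D ≤ d ∧ d ^ 2 ∣ n + i
    · left; right; rw [hG2, mem_filter]; exact ⟨hnX, c2⟩
    right
    push Not at c1 c2
    obtain ⟨a, w, hw, hwa, haU, heq⟩ := diag_ratio (D := D) (by omega) hsim (by omega) (fun i hi d hd => by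
      by_contra hlt
      push Not at hlt
      exact c2 i hi d hlt.le hd)
    rw [hG3, mem_biUnion]
    refine ⟨(a, w), mem_product.2 ⟨mem_Icc.2 ⟨by omega, haU⟩, mem_Icc.2 ⟨hw, by omega⟩⟩, ?_⟩
    simp only [hS, mem_filter]
    exact ⟨hnX, c1, m, by omega, heq⟩
  have b1 : (G1.card : ℝ) ≤ 2 * y0 := by
    have h1 : G1 ⊆ range (⌊y0⌋₊ + 1) := by
      intro n hn
      rw [hG1, mem_filter] at hn
      rw [mem_range, Nat.lt_succ_iff]
      exact Nat.le_floor hn.2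
    have h2 := Finset.card_le_card h1
    rw [card_range] at h2
    have h3 : (G1.card : ℝ) ≤ ⌊y0⌋₊ + 1 := by exact_mod_cast h2
    have h4 : (⌊y0⌋₊ : ℝ) ≤ y0 := Nat.floor_le (by positivity)
    linarith
  have b2 : (G2.card : ℝ) ≤ 4 * k * y0 := by
    have h1 := card_square k D X hD0 G2 (by
      intro n hn
      rw [hG2, mem_filter, mem_range] at hn
      exact ⟨by omega, hn.2⟩)
    refine h1.trans ?_
    rw [hyY]
    have h3 : (X : ℝ) + k ≤ 2 * X := by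
      have : (k : ℝ) ≤ X := by exact_mod_cast hX
      linarith
    have h4 : 2 / (D : ℝ) ≤ 2 / Y := by gcongr
    calc (k : ℝ) * (((X : ℝ) + k) * (2 / (D : ℝ))) ≤ k * ((2 * X) * (2 / Y)) := by gcongr
      _ = 4 * k * (X / Y) := by ring
  have b3 : (G3.card : ℝ) ≤ 2 * k ^ 2 * K0 ^ 3 * y0 := by
    have h1 : ∀ q ∈ Icc 1 U ×ˢ Icc 1 U, ((S q).card : ℝ) ≤ 2 * k ^ 2 * U * Y := by
      intro q hq
      rw [mem_product, mem_Icc, mem_Icc] at hq
      have hpos : (0 : ℝ) < U * k ^ 2 := by positivity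
      have h2 := card_spaced X (y0 / (U * k ^ 2)) (by positivity) (S q) (fun n hn => by
          simp only [hS, mem_filter, mem_range] at hn
          omega) (by
        intro n hn n' hn' hlt
        simp only [hS, mem_filter, mem_range] at hn hn'
        obtain ⟨-, hny, m, hmn, he⟩ := hn
        obtain ⟨-, -, m', hmn', he'⟩ := hn'
        have h3 := gap hk hmn hmn' hlt he he' hq.2.1 hq.1.2
        have h4 : (n : ℝ) < U * k ^ 2 * ((n' : ℝ) - n) := by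
          have : (n : ℝ) < U * k ^ 2 * ((n' - n : ℕ) : ℝ) := by exact_mod_cast h3
          rwa [Nat.cast_sub hlt.le] at this
        rw [div_le_iff₀ hpos]
        nlinarith)
      refine h2.trans ?_
      have h5 : (X : ℝ) / (y0 / (U * k ^ 2)) = k ^ 2 * U * Y := by
        rw [← hXy]
        field_simp
      rw [h5]
      have h6 : (1 : ℝ) ≤ k ^ 2 * U * Y := by
        have e1 : (1 : ℝ) ≤ (k : ℝ) ^ 2 := by nlinarith
        calc (1 : ℝ) = 1 * 1 * 1 := by norm_num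
          _ ≤ k ^ 2 * U * Y := by gcongr
      linarith
    have h2 : (G3.card : ℝ) ≤ ∑ q ∈ Icc 1 U ×ˢ Icc 1 U, ((S q).card : ℝ) := by
      exact_mod_cast Finset.card_biUnion_le
    refine h2.trans ((Finset.sum_le_sum h1).trans ?_)
    rw [Finset.sum_const, nsmul_eq_mul, Finset.card_product, Nat.card_Icc]
    push_cast
    have e1 : ((U : ℝ) + 1 - 1) = U := by ring
    calc ((U + 1 - 1 : ℕ) : ℝ) * ((U + 1 - 1 : ℕ) : ℝ) * (2 * k ^ 2 * U * Y)
        = 2 * k ^ 2 * ((U : ℝ) ^ 3 * Y) := by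
          rw [Nat.add_sub_cancel]; ring
      _ ≤ 2 * k ^ 2 * ((K0 * Y ^ (2 * k)) ^ 3 * Y) := by gcongr
      _ = 2 * k ^ 2 * K0 ^ 3 * ((Y ^ (2 * k)) ^ 3 * Y) := by ring
      _ = _ := by rw [hYpow]
  have hc := (Finset.card_le_card hsub).trans ((Finset.card_union_le _ _).trans
    (Nat.add_le_add_right (Finset.card_union_le _ _) _))
  have hc' : ((GG k X).card : ℝ) ≤ G1.card + G2.card + G3.card := by exact_mod_cast hc
  calc ((GG k X).card : ℝ) ≤ G1.card + G2.card + G3.card := hc'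
    _ ≤ 2 * y0 + 4 * k * y0 + 2 * k ^ 2 * K0 ^ 3 * y0 := by linarith
    _ = (2 + 4 * k + 2 * k ^ 2 * K0 ^ 3) * y0 := by ring

/-- the divisor function of a block and the logarithm are small -/
lemma T_bound (k : ℕ) (hk1 : 0 < k) (η : ℝ) (hη0 : 0 < η) (hη1 : η ≤ 1) : ∃ T : ℝ, 0 < T ∧ ∀ X : ℕ, k ≤ X →
    ∀ n ≤ X, ((B n k).divisors.card : ℝ) ^ 2 * (Nat.log 2 (2 * X + 3) + 1) ≤ T * (X : ℝ) ^ (2 * η) := by
  have hk1r : (0 : ℝ) < k := by exact_mod_cast hk1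
  obtain ⟨C, hC, hdiv⟩ := Pool.Agent.H510R2.divisor_bound (η / (2 * k)) (by positivity)
  set L : ℝ := 5 / η * 2 + 1 with hL
  refine ⟨(C * 2) ^ 2 * L, by positivity, fun X hkX n1 hn1 => ?_⟩
  have hX : 1 ≤ X := by omega
  have hX0r : (0 : ℝ) < X := by exact_mod_cast hX
  have hX1r : (1 : ℝ) ≤ X := by exact_mod_cast hX
  have h1 : ((B n1 k).divisors.card : ℝ) ≤ C * 2 * (X : ℝ) ^ (η / 2) := by
    refine (hdiv _ (B_pos n1 k)).trans ?_
    rw [mul_assoc]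
    have h2 : (B n1 k : ℝ) ≤ (2 * X) ^ k := by
      have : B n1 k ≤ (2 * X) ^ k := (B_le n1 k).trans (Nat.pow_le_pow_left (by omega) _)
      exact_mod_cast this
    have h3 : (B n1 k : ℝ) ^ (η / (2 * k)) ≤ ((2 * (X : ℝ)) ^ k) ^ (η / (2 * k)) := by gcongr
    have h4 : ((2 * (X : ℝ)) ^ k) ^ (η / (2 * k)) = (2 * (X : ℝ)) ^ (η / 2) := by
      rw [← Real.rpow_natCast, ← Real.rpow_mul (by positivity)]
      congr 1
      field_simp
    have h5 : (2 * (X : ℝ)) ^ (η / 2) ≤ 2 * (X : ℝ) ^ (η / 2) := by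
      rw [Real.mul_rpow (by norm_num) hX0r.le]
      have : (2 : ℝ) ^ (η / 2) ≤ 2 := by
        calc (2 : ℝ) ^ (η / 2) ≤ (2 : ℝ) ^ (1 : ℝ) := by
              refine Real.rpow_le_rpow_of_exponent_le (by norm_num) ?_
              linarith
          _ = 2 := Real.rpow_one 2
      gcongr
    have h6 := h3.trans (h4.le.trans h5)
    gcongr
  have h2 : ((B n1 k).divisors.card : ℝ) ^ 2 ≤ (C * 2) ^ 2 * (X : ℝ) ^ η := by
    calc ((B n1 k).divisors.card : ℝ) ^ 2 ≤ (C * 2 * (X : ℝ) ^ (η / 2)) ^ 2 := by gcongr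
      _ = (C * 2) ^ 2 * ((X : ℝ) ^ (η / 2) * (X : ℝ) ^ (η / 2)) := by ring
      _ = (C * 2) ^ 2 * (X : ℝ) ^ η := by
        rw [← Real.rpow_add hX0r]
        congr 2
        ring
  have h3 : (Nat.log 2 (2 * X + 3) : ℝ) + 1 ≤ L * (X : ℝ) ^ η := by
    have e1 : (Nat.log 2 (2 * X + 3) : ℝ) * Real.log 2 ≤ Real.log ((2 * X + 3 : ℕ) : ℝ) := by
      rw [← Real.log_pow]
      refine Real.log_le_log (by positivity) ?_
      exact_mod_cast Nat.pow_log_le_self 2 (by omega)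
    have e2 : Real.log ((2 * X + 3 : ℕ) : ℝ) ≤ (5 * (X : ℝ)) ^ η / η := by
      refine (Real.log_le_rpow_div (by positivity) hη0).trans ?_
      have : ((2 * X + 3 : ℕ) : ℝ) ≤ 5 * (X : ℝ) := by push_cast; linarith
      gcongr
    have e3 : (5 * (X : ℝ)) ^ η ≤ 5 * (X : ℝ) ^ η := by
      rw [Real.mul_rpow (by norm_num) hX0r.le]
      have : (5 : ℝ) ^ η ≤ 5 := by
        calc (5 : ℝ) ^ η ≤ (5 : ℝ) ^ (1 : ℝ) :=
              Real.rpow_le_rpow_of_exponent_le (by norm_num) hη1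
          _ = 5 := Real.rpow_one 5
      gcongr
    have e4 : (5 * (X : ℝ)) ^ η / η ≤ 5 / η * (X : ℝ) ^ η := by
      calc (5 * (X : ℝ)) ^ η / η ≤ (5 * (X : ℝ) ^ η) / η := by gcongr
        _ = 5 / η * (X : ℝ) ^ η := by ring
    have e5 : 0.5 ≤ Real.log 2 := by have := Real.log_two_gt_d9; linarith
    have e6 : (0 : ℝ) ≤ Nat.log 2 (2 * X + 3) := by positivity
    have e7 : (Nat.log 2 (2 * X + 3) : ℝ) ≤ 2 * (5 / η * (X : ℝ) ^ η) := by nlinarith
    have e8 : (1 : ℝ) ≤ (X : ℝ) ^ η := Real.one_le_rpow hX1r hη0.le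
    calc (Nat.log 2 (2 * X + 3) : ℝ) + 1 ≤ 2 * (5 / η * (X : ℝ) ^ η) + (X : ℝ) ^ η := by linarith
      _ = L * (X : ℝ) ^ η := by rw [hL]; ring
  have h4 : (0 : ℝ) ≤ (Nat.log 2 (2 * X + 3) : ℝ) + 1 := by positivity
  calc ((B n1 k).divisors.card : ℝ) ^ 2 * ((Nat.log 2 (2 * X + 3) : ℝ) + 1)
      ≤ ((C * 2) ^ 2 * (X : ℝ) ^ η) * (L * (X : ℝ) ^ η) := by gcongr
    _ = (C * 2) ^ 2 * L * ((X : ℝ) ^ η * (X : ℝ) ^ η) := by ring
    _ = (C * 2) ^ 2 * L * (X : ℝ) ^ (2 * η) := by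
      rw [← Real.rpow_add hX0r]
      congr 2
      ring

lemma PR_diag_card (k X : ℕ) (hk2 : 2 ≤ k) (T : ℝ)
    (hT : ∀ n ≤ X, ((B n k).divisors.card : ℝ) ^ 2 * (Nat.log 2 (2 * X + 3) + 1) ≤ T) :
    ((PR k k X).card : ℝ) ≤ (GG k X).card * T := by
  classical
  have h1 : PR k k X ⊆ (GG k X).biUnion (fun n2 =>
      ((range (X + 1)).filter (fun n1 => Sim (B n1 k) (B n2 k))).image (fun n1 => (n1, n2))) := by
    intro q hq
    unfold PR at hq
    rw [mem_filter, mem_product, mem_range, mem_range] at hq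
    rw [mem_biUnion]
    refine ⟨q.2, ?_, ?_⟩
    · unfold GG
      rw [mem_filter, mem_range]
      exact ⟨hq.1.2, q.1, hq.2.1, hq.2.2⟩
    · rw [mem_image]
      exact ⟨q.1, mem_filter.2 ⟨mem_range.2 hq.1.1, hq.2.2⟩, rfl⟩
  have h2 : ((PR k k X).card : ℝ) ≤ ∑ n2 ∈ GG k X,
      ((((range (X + 1)).filter (fun n1 => Sim (B n1 k) (B n2 k))).card : ℕ) : ℝ) := by
    have h3 := (Finset.card_le_card h1).trans (Finset.card_biUnion_le.trans
      (Finset.sum_le_sum fun n1 _ => Finset.card_image_le))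
    exact_mod_cast h3
  refine h2.trans ?_
  have h4 : ∀ n2 ∈ GG k X,
      ((((range (X + 1)).filter (fun n1 => Sim (B n1 k) (B n2 k))).card : ℕ) : ℝ) ≤ T := by
    intro n2 hn2
    unfold GG at hn2
    rw [mem_filter, mem_range] at hn2
    refine le_trans ?_ (hT n2 (by omega))
    have h5 := card_second (B n2 k) X (B_pos n2 k)
      ((range (X + 1)).filter (fun n1 => Sim (B n1 k) (B n2 k))) (by
        intro n hn
        rw [mem_filter, mem_range] at hn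
        refine ⟨by omega, fun p hp hpn => (hn.2 p hp).1 ?_⟩
        rcases (Nat.Prime.dvd_mul hp).1 hpn with h | h
        · exact h.trans (dvd_B (by rw [mem_Icc]; omega))
        · exact h.trans (dvd_B (by rw [mem_Icc]; omega)))
    exact_mod_cast h5
  refine (Finset.sum_le_sum h4).trans (le_of_eq ?_)
  rw [Finset.sum_const, nsmul_eq_mul]

/-- equal lengths -/
theorem PR_diag (k : ℕ) (hk2 : 2 ≤ k) : ∃ C : ℝ, 0 < C ∧ ∀ X : ℕ, 1 ≤ X →
    ((PR k k X).card : ℝ) ≤ C * (X : ℝ) ^ (1 - 1 / (8 * (k : ℝ))) := by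
  classical
  have hk1 : 0 < k := by omega
  have hk1r : (2 : ℝ) ≤ k := by exact_mod_cast hk2
  obtain ⟨K, hK, hG⟩ := GG_card k hk2
  set η : ℝ := (1 / (6 * (k : ℝ) + 2) - 1 / (8 * (k : ℝ))) / 2 with hη
  have hη0 : 0 < η := by
    have : 1 / (8 * (k : ℝ)) < 1 / (6 * (k : ℝ) + 2) := by
      apply one_div_lt_one_div_of_lt (by positivity)
      linarith
    rw [hη]
    linarith
  have hη1 : η ≤ 1 := by
    have e1 : 1 / (6 * (k : ℝ) + 2) ≤ 1 := by
      rw [div_le_one (by positivity)]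
      linarith
    have e2 : 0 < 1 / (8 * (k : ℝ)) := by positivity
    rw [hη]
    linarith
  obtain ⟨T, hT, hTb⟩ := T_bound k hk1 η hη0 hη1
  refine ⟨K * T, by positivity, fun X hX => ?_⟩
  have hX0r : (0 : ℝ) < X := by exact_mod_cast hX
  have hX1r : (1 : ℝ) ≤ X := by exact_mod_cast hX
  by_cases hkX : k ≤ X
  swap
  · have : PR k k X = ∅ := by
      rw [Finset.eq_empty_iff_forall_notMem]
      intro q hq
      unfold PR at hq
      rw [mem_filter, mem_product, mem_range, mem_range] at hq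
      omega
    rw [this]
    simp only [card_empty, Nat.cast_zero]
    positivity
  refine (PR_diag_card k X hk2 _ (hTb X hkX)).trans ?_
  have hexp : (X : ℝ) ^ (1 - 1 / (6 * (k : ℝ) + 2)) * (X : ℝ) ^ (2 * η) = (X : ℝ) ^ (1 - 1 / (8 * (k : ℝ))) := by
    rw [← Real.rpow_add hX0r]
    congr 1
    rw [hη]
    ring
  calc ((GG k X).card : ℝ) * (T * (X : ℝ) ^ (2 * η))
      ≤ (K * (X : ℝ) ^ (1 - 1 / (6 * (k : ℝ) + 2))) * (T * (X : ℝ) ^ (2 * η)) := by
        gcongr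
        exact hG X hkX
    _ = K * T * ((X : ℝ) ^ (1 - 1 / (6 * (k : ℝ) + 2)) * (X : ℝ) ^ (2 * η)) := by ring
    _ = _ := by rw [hexp]

end Pool.Agent.Helper577Blk
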