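import Pool.Agent.helper577_blk.Arith

set_option autoImplicit false

open Finset

namespace Pool.Agent.Helper577Blk

open Pool.Agent.Helper577Eps (Sim)

lemma B_le (n k : ℕ) : B n k ≤ (n + k) ^ k := by
  unfold B
  have : ∏ i ∈ Icc 1 k, (n + i) ≤ ∏ _i ∈ Icc 1 k, (n + k) := by
    refine Finset.prod_le_prod' fun i hi => ?_
    rw [mem_Icc] at hi
    omega
  simpa using this

lemma le_B (n k : ℕ) : n ^ k ≤ B n k := by
  unfold B
  have : ∏ _i ∈ Icc 1 k, n ≤ ∏ i ∈ Icc 1 k, (n + i) := by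
    refine Finset.prod_le_prod' fun i _ => ?_
    omega
  simpa using this

open Classical in
/-- first members of pairs -/
noncomputable def FF (k1 k2 X : ℕ) : Finset ℕ :=
  (range (X + 1)).filter (fun n1 => ∃ n2 ≤ X, n1 + k1 ≤ n2 ∧ Sim (B n1 k1) (B n2 k2))

open Classical in
/-- pairs -/
noncomputable def PR (k1 k2 X : ℕ) : Finset (ℕ × ℕ) :=
  (range (X + 1) ×ˢ range (X + 1)).filter (fun q => q.1 + k1 ≤ q.2 ∧ Sim (B q.1 k1) (B q.2 k2))

lemma PR_card (k1 k2 X : ℕ) (hk2 : 2 ≤ k2) (T : ℝ)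
    (hT : ∀ n1 ≤ X, ((B n1 k1).divisors.card : ℝ) ^ 2 * (Nat.log 2 (2 * X + 3) + 1) ≤ T) :
    ((PR k1 k2 X).card : ℝ) ≤ (FF k1 k2 X).card * T := by
  classical
  have h1 : PR k1 k2 X ⊆ (FF k1 k2 X).biUnion (fun n1 =>
      ((range (X + 1)).filter (fun n2 => Sim (B n1 k1) (B n2 k2))).image (fun n2 => (n1, n2))) := by
    intro q hq
    unfold PR at hq
    rw [mem_filter, mem_product, mem_range, mem_range] at hq
    rw [mem_biUnion]
    refine ⟨q.1, ?_, ?_⟩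
    · unfold FF
      rw [mem_filter, mem_range]
      exact ⟨hq.1.1, q.2, by omega, hq.2.1, hq.2.2⟩
    · rw [mem_image]
      exact ⟨q.2, mem_filter.2 ⟨mem_range.2 hq.1.2, hq.2.2⟩, rfl⟩
  have h2 : ((PR k1 k2 X).card : ℝ) ≤ ∑ n1 ∈ FF k1 k2 X,
      ((((range (X + 1)).filter (fun n2 => Sim (B n1 k1) (B n2 k2))).card : ℕ) : ℝ) := by
    have h3 := (Finset.card_le_card h1).trans (Finset.card_biUnion_le.trans
      (Finset.sum_le_sum fun n1 _ => Finset.card_image_le))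
    exact_mod_cast h3
  refine h2.trans ?_
  have h4 : ∀ n1 ∈ FF k1 k2 X,
      ((((range (X + 1)).filter (fun n2 => Sim (B n1 k1) (B n2 k2))).card : ℕ) : ℝ) ≤ T := by
    intro n1 hn1
    unfold FF at hn1
    rw [mem_filter, mem_range] at hn1
    refine le_trans ?_ (hT n1 (by omega))
    have h5 := card_second (B n1 k1) X (B_pos n1 k1)
      ((range (X + 1)).filter (fun n2 => Sim (B n1 k1) (B n2 k2))) (by
        intro n hn
        rw [mem_filter, mem_range] at hn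
        refine ⟨by omega, fun p hp hpn => (hn.2 p hp).2 ?_⟩
        rcases (Nat.Prime.dvd_mul hp).1 hpn with h | h
        · exact h.trans (dvd_B (by rw [mem_Icc]; omega))
        · exact h.trans (dvd_B (by rw [mem_Icc]; omega)))
    exact_mod_cast h5
  refine (Finset.sum_le_sum h4).trans (le_of_eq ?_)
  rw [Finset.sum_const, nsmul_eq_mul]

lemma FF_card (k1 k2 : ℕ) (h12 : k2 < k1) : ∃ K : ℝ, 0 < K ∧ ∀ X : ℕ, k1 ≤ X →
    ((FF k1 k2 X).card : ℝ) ≤ K * (X : ℝ) ^ (1 - 1 / (4 * (k1 : ℝ))) := by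
  classical
  have hk1 : 0 < k1 := by omega
  have hk1r : (0 : ℝ) < k1 := by exact_mod_cast hk1
  set K0 : ℝ := (cc k1 : ℝ) * 2 ^ k2 * 4 ^ k1 with hK0
  have hcc : (1 : ℝ) ≤ cc k1 := by exact_mod_cast cc_pos k1
  have hK1 : 1 ≤ K0 := by
    have e1 : (1 : ℝ) ≤ 2 ^ k2 := one_le_pow₀ (by norm_num)
    have e2 : (1 : ℝ) ≤ 4 ^ k1 := one_le_pow₀ (by norm_num)
    calc (1 : ℝ) = 1 * 1 * 1 := by norm_num
      _ ≤ K0 := by rw [hK0]; gcongr
  refine ⟨2 * K0 + 4 * k1, by positivity, fun X hX => ?_⟩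
  have hX0 : 0 < X := by omega
  have hX0r : (0 : ℝ) < X := by exact_mod_cast hX0
  have hX1r : (1 : ℝ) ≤ X := by exact_mod_cast hX0
  set Y : ℝ := (X : ℝ) ^ (1 / (4 * (k1 : ℝ))) with hY
  have hY1 : 1 ≤ Y := Real.one_le_rpow hX1r (by positivity)
  set D := ⌈Y⌉₊ with hD
  have hD1 : Y ≤ D := Nat.le_ceil _
  have hD2 : (D : ℝ) ≤ 2 * Y := by
    have := Nat.ceil_lt_add_one (show 0 ≤ Y by positivity)
    rw [← hD] at this
    linarith
  have hD0 : 1 ≤ D := by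
    have : (1 : ℝ) ≤ D := hY1.trans hD1
    exact_mod_cast this
  have hYk : Y ^ (2 * k1) = (X : ℝ) ^ (1 / 2 : ℝ) := by
    rw [hY, ← Real.rpow_natCast, ← Real.rpow_mul hX0r.le]
    congr 1
    push_cast
    field_simp
    norm_num
  set F1 := (range (X + 1)).filter (fun n1 => n1 ^ k1 ≤ cc k1 * (2 * X) ^ k2 * D ^ (2 * k1)) with hF1
  set F2 := (range (X + 1)).filter (fun n1 => ∃ i ∈ Icc 1 k1, ∃ d : ℕ, D ≤ d ∧ d ^ 2 ∣ n1 + i) with hF2
  have hsub : FF k1 k2 X ⊆ F1 ∪ F2 := by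
    intro n1 hn1
    unfold FF at hn1
    rw [mem_filter, mem_range] at hn1
    obtain ⟨hn1X, n2, hn2X, hle, hsim⟩ := hn1
    rw [mem_union, hF1, hF2, mem_filter, mem_filter, mem_range]
    by_cases hc : n1 ^ k1 ≤ cc k1 * (2 * X) ^ k2 * D ^ (2 * k1)
    · left; exact ⟨hn1X, hc⟩
    · right
      push Not at hc
      refine ⟨hn1X, large_square hsim ?_⟩
      have h1 : B n2 k2 ≤ (2 * X) ^ k2 := (B_le n2 k2).trans (Nat.pow_le_pow_left (by omega) _)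
      calc cc k1 * B n2 k2 * D ^ (2 * k1) ≤ cc k1 * (2 * X) ^ k2 * D ^ (2 * k1) := by gcongr
        _ < n1 ^ k1 := hc
        _ ≤ B n1 k1 := le_B n1 k1
  have c2 : (F2.card : ℝ) ≤ 4 * k1 * (X : ℝ) ^ (1 - 1 / (4 * (k1 : ℝ))) := by
    have h1 := card_square k1 D X hD0 F2 (by
      intro n hn
      rw [hF2, mem_filter, mem_range] at hn
      exact ⟨by omega, hn.2⟩)
    refine h1.trans ?_
    have h2 : (X : ℝ) ^ (1 - 1 / (4 * (k1 : ℝ))) = X / Y := by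
      rw [Real.rpow_sub hX0r, Real.rpow_one]
    rw [h2]
    have h3 : (X : ℝ) + k1 ≤ 2 * X := by
      have : (k1 : ℝ) ≤ X := by exact_mod_cast hX
      linarith
    have h4 : 2 / (D : ℝ) ≤ 2 / Y := by gcongr
    calc (k1 : ℝ) * (((X : ℝ) + k1) * (2 / (D : ℝ))) ≤ k1 * ((2 * X) * (2 / Y)) := by gcongr
      _ = 4 * k1 * (X / Y) := by ring
  have c1 : (F1.card : ℝ) ≤ 2 * K0 * (X : ℝ) ^ (1 - 1 / (4 * (k1 : ℝ))) := by
    set Z : ℝ := K0 * (X : ℝ) ^ (1 - 1 / (2 * (k1 : ℝ))) with hZ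
    have hexp : 0 ≤ 1 - 1 / (2 * (k1 : ℝ)) := by
      have : 1 / (2 * (k1 : ℝ)) ≤ 1 := by
        rw [div_le_one (by positivity)]
        have : (1 : ℝ) ≤ k1 := by exact_mod_cast hk1
        linarith
      linarith
    have hZ0 : 0 ≤ Z := by positivity
    have h1 : F1 ⊆ range (⌊Z⌋₊ + 1) := by
      intro n hn
      rw [hF1, mem_filter] at hn
      rw [mem_range, Nat.lt_succ_iff]
      refine Nat.le_floor ?_
      by_contra hlt
      push Not at hlt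
      have h2 : (n : ℝ) ^ k1 ≤ K0 * (X : ℝ) ^ ((k1 : ℝ) - 1 / 2) := by
        have h3 : (n : ℝ) ^ k1 ≤ cc k1 * (2 * X) ^ k2 * (D : ℝ) ^ (2 * k1) := by exact_mod_cast hn.2
        refine h3.trans ?_
        have h4 : (D : ℝ) ^ (2 * k1) ≤ 4 ^ k1 * (X : ℝ) ^ (1 / 2 : ℝ) := by
          calc (D : ℝ) ^ (2 * k1) ≤ (2 * Y) ^ (2 * k1) := by gcongr
            _ = 4 ^ k1 * (X : ℝ) ^ (1 / 2 : ℝ) := by
              rw [mul_pow, hYk, pow_mul]; norm_num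
        have h5 : (X : ℝ) ^ k2 * (X : ℝ) ^ (1 / 2 : ℝ) ≤ (X : ℝ) ^ ((k1 : ℝ) - 1 / 2) := by
          rw [← Real.rpow_natCast, ← Real.rpow_add hX0r]
          refine Real.rpow_le_rpow_of_exponent_le hX1r ?_
          have : (k2 : ℝ) + 1 ≤ k1 := by exact_mod_cast h12
          linarith
        calc (cc k1 : ℝ) * (2 * X) ^ k2 * (D : ℝ) ^ (2 * k1)
            ≤ cc k1 * (2 * X) ^ k2 * (4 ^ k1 * (X : ℝ) ^ (1 / 2 : ℝ)) := by gcongr
          _ = K0 * ((X : ℝ) ^ k2 * (X : ℝ) ^ (1 / 2 : ℝ)) := by rw [hK0, mul_pow]; ring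
          _ ≤ K0 * (X : ℝ) ^ ((k1 : ℝ) - 1 / 2) := by gcongr
      have h6 : Z ^ k1 < (n : ℝ) ^ k1 := pow_lt_pow_left₀ hlt hZ0 (by omega)
      have h7 : K0 * (X : ℝ) ^ ((k1 : ℝ) - 1 / 2) ≤ Z ^ k1 := by
        rw [hZ, mul_pow, ← Real.rpow_natCast ((X : ℝ) ^ (1 - 1 / (2 * (k1 : ℝ)))) k1, ← Real.rpow_mul hX0r.le]
        have h8 : (1 - 1 / (2 * (k1 : ℝ))) * (k1 : ℝ) = (k1 : ℝ) - 1 / 2 := by field_simp
        rw [h8]
        have h9 : K0 ≤ K0 ^ k1 := le_self_pow₀ hK1 (by omega)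
        gcongr
      linarith
    have h2 := Finset.card_le_card h1
    rw [card_range] at h2
    have h3 : (F1.card : ℝ) ≤ ⌊Z⌋₊ + 1 := by exact_mod_cast h2
    have h4 : (⌊Z⌋₊ : ℝ) ≤ Z := Nat.floor_le hZ0
    have h5 : (X : ℝ) ^ (1 - 1 / (2 * (k1 : ℝ))) ≤ (X : ℝ) ^ (1 - 1 / (4 * (k1 : ℝ))) := by
      refine Real.rpow_le_rpow_of_exponent_le hX1r ?_
      have : 1 / (4 * (k1 : ℝ)) ≤ 1 / (2 * (k1 : ℝ)) := by
        apply one_div_le_one_div_of_le (by positivity)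
        linarith
      linarith
    have h6 : (1 : ℝ) ≤ (X : ℝ) ^ (1 - 1 / (2 * (k1 : ℝ))) := Real.one_le_rpow hX1r hexp
    have h7 : (1 : ℝ) ≤ K0 * (X : ℝ) ^ (1 - 1 / (4 * (k1 : ℝ))) := by
      calc (1 : ℝ) = 1 * 1 := by norm_num
        _ ≤ K0 * (X : ℝ) ^ (1 - 1 / (4 * (k1 : ℝ))) := by
          gcongr
          exact h6.trans h5
    have h8 : Z ≤ K0 * (X : ℝ) ^ (1 - 1 / (4 * (k1 : ℝ))) := by rw [hZ]; gcongr
    linarith
  have hc := (Finset.card_le_card hsub).trans (Finset.card_union_le _ _)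
  have hc' : ((FF k1 k2 X).card : ℝ) ≤ F1.card + F2.card := by exact_mod_cast hc
  calc ((FF k1 k2 X).card : ℝ) ≤ F1.card + F2.card := hc'
    _ ≤ 2 * K0 * (X : ℝ) ^ (1 - 1 / (4 * (k1 : ℝ))) + 4 * k1 * (X : ℝ) ^ (1 - 1 / (4 * (k1 : ℝ))) := add_le_add c1 c2
    _ = (2 * K0 + 4 * k1) * (X : ℝ) ^ (1 - 1 / (4 * (k1 : ℝ))) := by ring

theorem PR_bound (k1 k2 : ℕ) (hk2 : 2 ≤ k2) (h12 : k2 < k1) : ∃ C : ℝ, 0 < C ∧ ∀ X : ℕ, 1 ≤ X →
    ((PR k1 k2 X).card : ℝ) ≤ C * (X : ℝ) ^ (1 - 1 / (8 * (k1 : ℝ))) := by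
  classical
  have hk1 : 0 < k1 := by omega
  have hk1r : (0 : ℝ) < k1 := by exact_mod_cast hk1
  obtain ⟨K, hK, hF⟩ := FF_card k1 k2 h12
  set η : ℝ := 1 / (16 * (k1 : ℝ)) with hη
  have hη0 : 0 < η := by positivity
  obtain ⟨C, hC, hdiv⟩ := Pool.Agent.H510R2.divisor_bound (η / (2 * k1)) (by positivity)
  set L : ℝ := 5 / η * 2 + 1 with hL
  refine ⟨K * ((C * 2) ^ 2 * L), by positivity, fun X hX => ?_⟩
  have hX0r : (0 : ℝ) < X := by exact_mod_cast hX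
  have hX1r : (1 : ℝ) ≤ X := by exact_mod_cast hX
  by_cases hkX : k1 ≤ X
  swap
  · have : PR k1 k2 X = ∅ := by
      rw [Finset.eq_empty_iff_forall_notMem]
      intro q hq
      unfold PR at hq
      rw [mem_filter, mem_product, mem_range, mem_range] at hq
      omega
    rw [this]
    simp only [card_empty, Nat.cast_zero]
    positivity
  have hexpand : (X : ℝ) ^ (1 - 1 / (4 * (k1 : ℝ))) * ((X : ℝ) ^ η * (X : ℝ) ^ η) =
      (X : ℝ) ^ (1 - 1 / (8 * (k1 : ℝ))) := by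
    rw [← Real.rpow_add hX0r, ← Real.rpow_add hX0r]
    congr 1
    rw [hη]
    field_simp
    ring
  have hT : ∀ n1 ≤ X, ((B n1 k1).divisors.card : ℝ) ^ 2 * (Nat.log 2 (2 * X + 3) + 1) ≤
      (C * 2) ^ 2 * L * ((X : ℝ) ^ η * (X : ℝ) ^ η) := by
    intro n1 hn1
    have h1 : ((B n1 k1).divisors.card : ℝ) ≤ C * 2 * (X : ℝ) ^ (η / 2) := by
      refine (hdiv _ (B_pos n1 k1)).trans ?_
      rw [mul_assoc]
      have h2 : (B n1 k1 : ℝ) ≤ (2 * X) ^ k1 := by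
        have : B n1 k1 ≤ (2 * X) ^ k1 := (B_le n1 k1).trans (Nat.pow_le_pow_left (by omega) _)
        exact_mod_cast this
      have h3 : (B n1 k1 : ℝ) ^ (η / (2 * k1)) ≤ ((2 * (X : ℝ)) ^ k1) ^ (η / (2 * k1)) := by gcongr
      have h4 : ((2 * (X : ℝ)) ^ k1) ^ (η / (2 * k1)) = (2 * (X : ℝ)) ^ (η / 2) := by
        rw [← Real.rpow_natCast, ← Real.rpow_mul (by positivity)]
        congr 1
        field_simp
      have h5 : (2 * (X : ℝ)) ^ (η / 2) ≤ 2 * (X : ℝ) ^ (η / 2) := by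
        rw [Real.mul_rpow (by norm_num) hX0r.le]
        have : (2 : ℝ) ^ (η / 2) ≤ 2 := by
          calc (2 : ℝ) ^ (η / 2) ≤ (2 : ℝ) ^ (1 : ℝ) := by
                refine Real.rpow_le_rpow_of_exponent_le (by norm_num) ?_
                have : η ≤ 1 := by
                  rw [hη, div_le_one (by positivity)]
                  have : (1 : ℝ) ≤ k1 := by exact_mod_cast hk1
                  linarith
                linarith
            _ = 2 := Real.rpow_one 2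
        gcongr
      have h6 := h3.trans (h4.le.trans h5)
      gcongr
    have h2 : ((B n1 k1).divisors.card : ℝ) ^ 2 ≤ (C * 2) ^ 2 * (X : ℝ) ^ η := by
      calc ((B n1 k1).divisors.card : ℝ) ^ 2 ≤ (C * 2 * (X : ℝ) ^ (η / 2)) ^ 2 := by gcongr
        _ = (C * 2) ^ 2 * ((X : ℝ) ^ (η / 2) * (X : ℝ) ^ (η / 2)) := by ring
        _ = (C * 2) ^ 2 * (X : ℝ) ^ η := by
          rw [← Real.rpow_add hX0r]
          congr 2
          ring
    have h3 : (Nat.log 2 (2 * X + 3) : ℝ) + 1 ≤ L * (X : ℝ) ^ η := by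
      have e1 : (Nat.log 2 (2 * X + 3) : ℝ) * Real.log 2 ≤ Real.log ((2 * X + 3 : ℕ) : ℝ) := by
        rw [← Real.log_pow]
        refine Real.log_le_log (by positivity) ?_
        exact_mod_cast Nat.pow_log_le_self 2 (by omega)
      have e2 : Real.log ((2 * X + 3 : ℕ) : ℝ) ≤ (5 * (X : ℝ)) ^ η / η := by
        refine (Real.log_le_rpow_div (by positivity) hη0).trans ?_
        have : ((2 * X + 3 : ℕ) : ℝ) ≤ 5 * (X : ℝ) := by push_cast; linarith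
        gcongr
      have e3 : (5 * (X : ℝ)) ^ η ≤ 5 * (X : ℝ) ^ η := by
        rw [Real.mul_rpow (by norm_num) hX0r.le]
        have : (5 : ℝ) ^ η ≤ 5 := by
          calc (5 : ℝ) ^ η ≤ (5 : ℝ) ^ (1 : ℝ) := by
                refine Real.rpow_le_rpow_of_exponent_le (by norm_num) ?_
                rw [hη, div_le_one (by positivity)]
                have : (1 : ℝ) ≤ k1 := by exact_mod_cast hk1
                linarith
            _ = 5 := Real.rpow_one 5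
        gcongr
      have e4 : (5 * (X : ℝ)) ^ η / η ≤ 5 / η * (X : ℝ) ^ η := by
        calc (5 * (X : ℝ)) ^ η / η ≤ (5 * (X : ℝ) ^ η) / η := by gcongr
          _ = 5 / η * (X : ℝ) ^ η := by ring
      have e5 : 0.5 ≤ Real.log 2 := by have := Real.log_two_gt_d9; linarith
      have e6 : (0 : ℝ) ≤ Nat.log 2 (2 * X + 3) := by positivity
      have e7 : (Nat.log 2 (2 * X + 3) : ℝ) ≤ 2 * (5 / η * (X : ℝ) ^ η) := by nlinarith
      have e8 : (1 : ℝ) ≤ (X : ℝ) ^ η := Real.one_le_rpow hX1r hη0.le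
      calc (Nat.log 2 (2 * X + 3) : ℝ) + 1 ≤ 2 * (5 / η * (X : ℝ) ^ η) + (X : ℝ) ^ η := by linarith
        _ = L * (X : ℝ) ^ η := by rw [hL]; ring
    have h4 : (0 : ℝ) ≤ (Nat.log 2 (2 * X + 3) : ℝ) + 1 := by positivity
    calc ((B n1 k1).divisors.card : ℝ) ^ 2 * ((Nat.log 2 (2 * X + 3) : ℝ) + 1)
        ≤ ((C * 2) ^ 2 * (X : ℝ) ^ η) * (L * (X : ℝ) ^ η) := by gcongr
      _ = (C * 2) ^ 2 * L * ((X : ℝ) ^ η * (X : ℝ) ^ η) := by ring
  refine (PR_card k1 k2 X hk2 _ hT).trans ?_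
  calc ((FF k1 k2 X).card : ℝ) * ((C * 2) ^ 2 * L * ((X : ℝ) ^ η * (X : ℝ) ^ η))
      ≤ (K * (X : ℝ) ^ (1 - 1 / (4 * (k1 : ℝ)))) * ((C * 2) ^ 2 * L * ((X : ℝ) ^ η * (X : ℝ) ^ η)) := by
        gcongr
        exact hF X hkX
    _ = K * ((C * 2) ^ 2 * L) * ((X : ℝ) ^ (1 - 1 / (4 * (k1 : ℝ))) * ((X : ℝ) ^ η * (X : ℝ) ^ η)) := by ring
    _ = _ := by rw [hexpand]

end Pool.Agent.Helper577Blk
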