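import Pool.Agent.helper577_blk.SharpUneq

set_option autoImplicit false

open Finset

namespace Pool.Agent.Helper577Blk

open Pool.Agent.Helper577Eps (Sim sqf_dvd tail_sq' harm_le)

/-- the key inequality in a block -/
lemma block_ineq {k1 k2 X n E : ℕ} {W c Z : ℝ} (hk1 : 2 ≤ k1) (hX : 1 ≤ X)
    (hWk : (X : ℝ) ^ k2 ≤ W ^ k1) (hW : 1 ≤ W) (hc : 0 < c) (hc1 : c ≤ 1)
    (hcP : (cc k1 : ℝ) * 2 ^ k2 * c ^ 2 < 1) (hZ : W / c < Z) (hZn : Z ≤ n) (hE : (E : ℝ) ≤ c * Z / W)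
    (hB : (n : ℝ) ^ k1 ≤ (cc k1 : ℝ) * (2 * X) ^ k2 * (E : ℝ) ^ 2) : False := by
  have hXr : (1 : ℝ) ≤ X := by exact_mod_cast hX
  have hccr : (1 : ℝ) ≤ cc k1 := by exact_mod_cast cc_pos k1
  have hWZ : W ≤ Z := by
    have : W ≤ W / c := by
      rw [le_div_iff₀ hc]
      nlinarith
    linarith
  have hZ0 : 0 < Z := by linarith
  obtain ⟨m, rfl⟩ : ∃ m, k1 = m + 2 := ⟨k1 - 2, by omega⟩
  have h1 : Z ^ (m + 2) ≤ (cc (m + 2) : ℝ) * (2 * X) ^ k2 * (c * Z / W) ^ 2 := by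
    calc Z ^ (m + 2) ≤ (n : ℝ) ^ (m + 2) := by gcongr
      _ ≤ (cc (m + 2) : ℝ) * (2 * X) ^ k2 * (E : ℝ) ^ 2 := hB
      _ ≤ _ := by gcongr
  have h2 : Z ^ m * W ^ 2 ≤ (cc (m + 2) : ℝ) * 2 ^ k2 * c ^ 2 * (X : ℝ) ^ k2 := by
    have h3 : Z ^ 2 * (Z ^ m * W ^ 2) ≤ Z ^ 2 * ((cc (m + 2) : ℝ) * 2 ^ k2 * c ^ 2 * (X : ℝ) ^ k2) := by
      calc Z ^ 2 * (Z ^ m * W ^ 2) = Z ^ (m + 2) * W ^ 2 := by ring
        _ ≤ ((cc (m + 2) : ℝ) * (2 * X) ^ k2 * (c * Z / W) ^ 2) * W ^ 2 := by gcongr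
        _ = _ := by rw [mul_pow 2 (X : ℝ) k2]; field_simp
    exact le_of_mul_le_mul_left h3 (by positivity)
  have h4 : W ^ (m + 2) ≤ Z ^ m * W ^ 2 := by
    rw [pow_add]
    gcongr
  have h5 : (X : ℝ) ^ k2 ≤ (cc (m + 2) : ℝ) * 2 ^ k2 * c ^ 2 * (X : ℝ) ^ k2 := hWk.trans (h4.trans h2)
  have h6 : 0 < (X : ℝ) ^ k2 := by positivity
  nlinarith

theorem FF_sharp (k1 k2 : ℕ) (hk1 : 2 ≤ k1) (h12 : k2 < k1) (θ : ℝ) (hθ23 : 2 / 3 ≤ θ) (hθ1 : θ ≤ 1)
    (hθ : (k2 : ℝ) / k1 ≤ θ) (ε : ℝ) (hε : 0 < ε) : ∃ K : ℝ, 0 < K ∧ ∀ X : ℕ, k1 ≤ X →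
    ((FF k1 k2 X).card : ℝ) ≤ K * (X : ℝ) ^ (θ + ε) := by
  classical
  have hk1r : (2 : ℝ) ≤ k1 := by exact_mod_cast hk1
  obtain ⟨T, hT1, hTb⟩ := tau_pow k1 (ε / 2) (by positivity)
  have hccr : (1 : ℝ) ≤ cc k1 := by exact_mod_cast cc_pos k1
  set P0 : ℝ := (cc k1 : ℝ) * 2 ^ k2 with hP0
  have hP1 : 1 ≤ P0 := by
    have e1 : (1 : ℝ) ≤ 2 ^ k2 := one_le_pow₀ (by norm_num)
    calc (1 : ℝ) = 1 * 1 := by norm_num
      _ ≤ P0 := by rw [hP0]; gcongr
  set c : ℝ := 1 / (2 * P0) with hc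
  have hc0 : 0 < c := by positivity
  have hc1 : c ≤ 1 := by
    rw [hc, div_le_one (by positivity)]
    linarith
  have hcP : P0 * c ^ 2 < 1 := by
    have : P0 * c ^ 2 = 1 / (4 * P0) := by rw [hc]; field_simp; norm_num
    rw [this, div_lt_one (by positivity)]
    linarith
  set M1 : ℝ := 8 * k1 / c + 2 * k1 ^ 2 + T * (8 * cc k1 / c + 1) with hM1
  have hM10 : 0 < M1 := by positivity
  refine ⟨(2 / c + 1) + (4 / ε + 1 + 1) * M1, by positivity, fun X hX => ?_⟩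
  have hX0 : 0 < X := by omega
  have hX0r : (0 : ℝ) < X := by exact_mod_cast hX0
  have hX1r : (1 : ℝ) ≤ X := by exact_mod_cast hX0
  set W : ℝ := (X : ℝ) ^ θ with hW
  have hW1 : 1 ≤ W := Real.one_le_rpow hX1r (by linarith)
  have hWX : W ≤ X := by
    calc W ≤ (X : ℝ) ^ (1 : ℝ) := Real.rpow_le_rpow_of_exponent_le hX1r hθ1
      _ = X := Real.rpow_one _
  have hW3 : (X : ℝ) ^ 2 ≤ W ^ 3 := by
    rw [hW, ← Real.rpow_natCast, ← Real.rpow_natCast, ← Real.rpow_mul hX0r.le]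
    refine Real.rpow_le_rpow_of_exponent_le hX1r ?_
    push_cast
    linarith
  have hWk : (X : ℝ) ^ k2 ≤ W ^ k1 := by
    rw [hW, ← Real.rpow_natCast, ← Real.rpow_natCast, ← Real.rpow_mul hX0r.le]
    refine Real.rpow_le_rpow_of_exponent_le hX1r ?_
    rwa [div_le_iff₀ (by positivity)] at hθ
  set Q : ℝ := (X : ℝ) ^ (ε / 2) with hQ
  have hQ1 : 1 ≤ Q := Real.one_le_rpow hX1r (by positivity)
  have hfinal : (X : ℝ) ^ (θ + ε) = W * Q * Q := by
    rw [hW, hQ, ← Real.rpow_add hX0r, ← Real.rpow_add hX0r]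
    congr 1
    ring
  set G0 := (range (X + 1)).filter (fun n : ℕ => (n : ℝ) ≤ 2 * (W / c)) with hG0
  set Bl : ℕ → Finset ℕ := fun j => (FF k1 k2 X).filter (fun n : ℕ => 2 ^ j ≤ n ∧ n < 2 ^ (j + 1) ∧
    2 * (W / c) < n) with hBl
  have hsub : FF k1 k2 X ⊆ G0 ∪ (range (Nat.log 2 X + 1)).biUnion Bl := by
    intro n hn
    have hn0 := hn
    unfold FF at hn
    rw [mem_filter] at hn
    rw [mem_union]
    by_cases c0 : (n : ℝ) ≤ 2 * (W / c)
    · left; rw [hG0, mem_filter]; exact ⟨hn.1, c0⟩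
    · right
      push Not at c0
      have hnpos : 0 < n := by
        have : (0 : ℝ) < n := lt_trans (by positivity) c0
        exact_mod_cast this
      have hnX : n ≤ X := by
        have := mem_range.1 hn.1
        omega
      rw [mem_biUnion]
      refine ⟨Nat.log 2 n, mem_range.2 (Nat.lt_succ_of_le (Nat.log_mono_right hnX)), ?_⟩
      simp only [hBl, mem_filter]
      exact ⟨hn0, Nat.pow_log_le_self 2 (by omega), Nat.lt_pow_succ_log_self (by norm_num) n, c0⟩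
  have b0 : (G0.card : ℝ) ≤ (2 / c + 1) * W := by
    have h1 : G0 ⊆ range (⌊2 * (W / c)⌋₊ + 1) := by
      intro n hn
      rw [hG0, mem_filter] at hn
      rw [mem_range, Nat.lt_succ_iff]
      exact Nat.le_floor hn.2
    have h2 := Finset.card_le_card h1
    rw [card_range] at h2
    have h3 : (G0.card : ℝ) ≤ ⌊2 * (W / c)⌋₊ + 1 := by exact_mod_cast h2
    have h4 : (⌊2 * (W / c)⌋₊ : ℝ) ≤ 2 * (W / c) := Nat.floor_le (by positivity)
    have h5 : 2 * (W / c) = 2 / c * W := by ring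
    linarith
  have bB : ∀ j ∈ range (Nat.log 2 X + 1), ((Bl j).card : ℝ) ≤ M1 * (W * Q) := by
    intro j hj
    rcases (Bl j).eq_empty_or_nonempty with hemp | ⟨n0, hn0⟩
    · rw [hemp]; simp only [card_empty, Nat.cast_zero]; positivity
    simp only [hBl, mem_filter] at hn0
    obtain ⟨hn0F, hn0a, hn0b, hn0c⟩ := hn0
    have hn0X : n0 ≤ X := by
      unfold FF at hn0F
      rw [mem_filter, mem_range] at hn0F
      omega
    set Z : ℝ := ((2 ^ j : ℕ) : ℝ) with hZ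
    have hZn0 : Z ≤ n0 := by rw [hZ]; exact_mod_cast hn0a
    have hZW : W / c < Z := by
      have h1 : (n0 : ℝ) < 2 * Z := by
        rw [hZ]
        have : n0 < 2 * 2 ^ j := by rw [pow_succ] at hn0b; omega
        exact_mod_cast this
      linarith
    have hZX : Z ≤ X := hZn0.trans (by exact_mod_cast hn0X)
    have hW0 : 0 < W := by linarith
    have hZ0 : 0 < Z := lt_trans (by positivity) hZW
    have hEs1 : 1 < c * Z / W := by
      rw [lt_div_iff₀ hW0]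
      rw [div_lt_iff₀ hc0] at hZW
      linarith
    set E := ⌊c * Z / W⌋₊ with hE
    have hE1 : 1 ≤ E := Nat.le_floor (by simpa using hEs1.le)
    have hE1r : (1 : ℝ) ≤ E := by exact_mod_cast hE1
    have hEY : (E : ℝ) ≤ c * Z / W := Nat.floor_le (by positivity)
    have hEY2 : c * Z / W ≤ 2 * E := by
      have := Nat.lt_floor_add_one (c * Z / W)
      rw [← hE] at this
      linarith
    have h2E : 2 / (E : ℝ) ≤ 4 * W / (c * Z) := by
      rw [div_le_div_iff₀ (by positivity) (by positivity)]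
      rw [div_le_iff₀ hW0] at hEY2
      linarith
    have hEsq : (E : ℝ) ^ 2 ≤ W := by
      have h1 : (c * Z / W) ^ 2 ≤ W := by
        rw [div_pow, div_le_iff₀ (by positivity)]
        calc (c * Z) ^ 2 ≤ (1 * X) ^ 2 := by gcongr
          _ = (X : ℝ) ^ 2 := by ring
          _ ≤ W ^ 3 := hW3
          _ = W * W ^ 2 := by ring
      exact le_trans (by gcongr) h1
    have hE2 : E ^ 2 ≤ X := by
      have : (E : ℝ) ^ 2 ≤ X := hEsq.trans hWX
      exact_mod_cast this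
    have h1 := card_V k1 E (2 * 2 ^ j) hE1 (T * Q) (fun e he => by
      rw [mem_Ioc] at he
      exact hTb X hX0 e (by omega) (by omega)) (by positivity) (Bl j) (fun n hn => by
      simp only [hBl, mem_filter] at hn
      obtain ⟨hnF, hna, hnb, hnc⟩ := hn
      refine ⟨by rw [pow_succ] at hnb; omega, ?_⟩
      unfold FF at hnF
      rw [mem_filter] at hnF
      obtain ⟨hnX, n2, hn2X, hle, hsim⟩ := hnF
      obtain ⟨d, hd, hB⟩ := large_prod hsim
      refine ⟨d, hd, ?_⟩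
      by_contra hcon
      push Not at hcon
      have e1 : B n2 k2 ≤ (2 * X) ^ k2 := (B_le n2 k2).trans (Nat.pow_le_pow_left (by omega) _)
      have e2 : n ^ k1 ≤ cc k1 * (2 * X) ^ k2 * E ^ 2 := by
        calc n ^ k1 ≤ B n k1 := le_B n k1
          _ ≤ cc k1 * B n2 k2 * (∏ i ∈ Icc 1 k1, d i) ^ 2 := hB
          _ ≤ cc k1 * (2 * X) ^ k2 * E ^ 2 := by gcongr
      refine block_ineq (k1 := k1) (k2 := k2) (X := X) (n := n) (E := E) (W := W) (c := c) (Z := Z) hk1 hX0 hWk hW1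
        hc0 hc1 hcP hZW ?_ hEY (by exact_mod_cast e2)
      rw [hZ]
      exact_mod_cast hna)
    refine h1.trans ?_
    have hZ2 : ((2 * 2 ^ j : ℕ) : ℝ) = 2 * Z := by rw [hZ]; push_cast; ring
    rw [hZ2]
    have h2E2 : 2 / (E : ℝ) ≤ 2 := by
      rw [div_le_iff₀ (by positivity)]
      linarith
    have e1 : (k1 : ℝ) * ((2 * Z + k1) * (2 / (E : ℝ))) ≤ (8 * k1 / c + 2 * k1 ^ 2) * (W * Q) := by
      have e2 : 2 * Z * (2 / (E : ℝ)) ≤ 8 * W / c := by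
        calc 2 * Z * (2 / (E : ℝ)) ≤ 2 * Z * (4 * W / (c * Z)) := by gcongr
          _ = 8 * W / c := by field_simp; norm_num
      calc (k1 : ℝ) * ((2 * Z + k1) * (2 / (E : ℝ)))
          = k1 * (2 * Z * (2 / (E : ℝ))) + k1 ^ 2 * (2 / (E : ℝ)) := by ring
        _ ≤ k1 * (8 * W / c) + k1 ^ 2 * 2 := by gcongr
        _ ≤ k1 * (8 * W / c) + k1 ^ 2 * (2 * W) := by gcongr; linarith
        _ = (8 * k1 / c + 2 * k1 ^ 2) * (W * 1) := by ring
        _ ≤ (8 * k1 / c + 2 * k1 ^ 2) * (W * Q) := by gcongr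
    have e3 : (cc k1 : ℝ) * (2 * Z) * (2 / (E : ℝ)) + (E : ℝ) ^ 2 ≤ (8 * cc k1 / c + 1) * W := by
      have e4 : (cc k1 : ℝ) * (2 * Z) * (2 / (E : ℝ)) ≤ 8 * cc k1 / c * W := by
        calc (cc k1 : ℝ) * (2 * Z) * (2 / (E : ℝ)) ≤ cc k1 * (2 * Z) * (4 * W / (c * Z)) := by gcongr
          _ = 8 * cc k1 / c * W := by field_simp; norm_num
      linarith
    calc (k1 : ℝ) * ((2 * Z + k1) * (2 / (E : ℝ))) + T * Q * (cc k1 * (2 * Z) * (2 / (E : ℝ)) + (E : ℝ) ^ 2)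
        ≤ (8 * k1 / c + 2 * k1 ^ 2) * (W * Q) + T * Q * ((8 * cc k1 / c + 1) * W) := by gcongr
      _ = M1 * (W * Q) := by rw [hM1]; ring
  have bU : (((range (Nat.log 2 X + 1)).biUnion Bl).card : ℝ) ≤ (4 / ε + 1 + 1) * M1 * (W * Q * Q) := by
    have h1 : (((range (Nat.log 2 X + 1)).biUnion Bl).card : ℝ) ≤
        ∑ j ∈ range (Nat.log 2 X + 1), ((Bl j).card : ℝ) := by exact_mod_cast Finset.card_biUnion_le
    refine h1.trans ((Finset.sum_le_sum bB).trans ?_)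
    rw [Finset.sum_const, nsmul_eq_mul, card_range]
    have h2 : ((Nat.log 2 X + 1 : ℕ) : ℝ) ≤ (4 / ε + 1 + 1) * Q := by
      have e1 : (Nat.log 2 X : ℝ) * Real.log 2 ≤ Real.log (X : ℝ) := by
        rw [← Real.log_pow]
        refine Real.log_le_log (by positivity) ?_
        exact_mod_cast Nat.pow_log_le_self 2 (by omega)
      have e2 : Real.log (X : ℝ) ≤ 2 / ε * Q := by
        refine (Real.log_le_rpow_div hX0r.le (show 0 < ε / 2 by positivity)).trans (le_of_eq ?_)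
        rw [hQ]
        field_simp
      have e5 : 0.5 ≤ Real.log 2 := by have := Real.log_two_gt_d9; linarith
      have e6 : (0 : ℝ) ≤ Nat.log 2 X := by positivity
      have e7 : (Nat.log 2 X : ℝ) ≤ 2 * (2 / ε * Q) := by nlinarith
      push_cast
      have e8 : 2 * (2 / ε * Q) = 4 / ε * Q := by ring
      nlinarith
    calc ((Nat.log 2 X + 1 : ℕ) : ℝ) * (M1 * (W * Q)) ≤ ((4 / ε + 1 + 1) * Q) * (M1 * (W * Q)) := by gcongr
      _ = _ := by ring
  have hcc := (Finset.card_le_card hsub).trans (Finset.card_union_le _ _)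
  have hcc' : ((FF k1 k2 X).card : ℝ) ≤ G0.card + ((range (Nat.log 2 X + 1)).biUnion Bl).card := by
    exact_mod_cast hcc
  rw [hfinal]
  have b0' : (G0.card : ℝ) ≤ (2 / c + 1) * (W * Q * Q) := by
    refine b0.trans ?_
    have : W * 1 * 1 ≤ W * Q * Q := by gcongr
    calc (2 / c + 1) * W = (2 / c + 1) * (W * 1 * 1) := by ring
      _ ≤ _ := by gcongr
  calc ((FF k1 k2 X).card : ℝ) ≤ G0.card + ((range (Nat.log 2 X + 1)).biUnion Bl).card := hcc'
    _ ≤ (2 / c + 1) * (W * Q * Q) + (4 / ε + 1 + 1) * M1 * (W * Q * Q) := add_le_add b0' bU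
    _ = _ := by ring

theorem PR_uneq_sharp (k1 k2 : ℕ) (hk2 : 2 ≤ k2) (h12 : k2 < k1) (ε : ℝ) (hε : 0 < ε) :
    ∃ C : ℝ, 0 < C ∧ ∀ X : ℕ, 1 ≤ X →
      ((PR k1 k2 X).card : ℝ) ≤ C * (X : ℝ) ^ (max (2 / 3) ((k2 : ℝ) / k1) + ε) := by
  classical
  have hk1r : (0 : ℝ) < k1 := by
    have : 0 < k1 := by omega
    exact_mod_cast this
  refine combine k1 (by omega) (max (2 / 3) ((k2 : ℝ) / k1)) ε hε (fun X => (FF k1 k2 X).card)
    (fun X => (PR k1 k2 X).card)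
    (FF_sharp k1 k2 (by omega) h12 _ (le_max_left _ _) (max_le (by norm_num) ?_) (le_max_right _ _) (ε / 2)
      (by positivity))
    (fun X hX => ?_) (fun X hX T hT => PR_card k1 k2 X hk2 T hT)
  · rw [div_le_one hk1r]
    exact_mod_cast h12.le
  · rw [Finset.card_eq_zero, Finset.eq_empty_iff_forall_notMem]
    intro q hq
    unfold PR at hq
    rw [mem_filter, mem_product, mem_range, mem_range] at hq
    omega

end Pool.Agent.Helper577Blk
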