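import Pool.Agent.helper577_blk.Vec

set_option autoImplicit false

open Finset

namespace Pool.Agent.Helper577Blk

open Pool.Agent.Helper577Eps (Sim sqf_dvd tail_sq' harm_le)

lemma diag_ratio2 {M N k : ℕ} (hk : 1 ≤ k) (h : Sim (B M k) (B N k)) (hlt : M < N) :
    ∃ d : ℕ → ℕ, (∀ i ∈ Icc 1 k, d i ^ 2 ∣ N + i) ∧ 1 ≤ ∏ i ∈ Icc 1 k, d i ∧
      ∃ w : ℕ, 1 ≤ w ∧ w < cc k * (∏ i ∈ Icc 1 k, d i) ^ 2 ∧
        w * B N k = cc k * (∏ i ∈ Icc 1 k, d i) ^ 2 * B M k := by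
  choose t d hd ht using fun i => Nat.sq_mul_squarefree (N + i)
  have h1 : ∀ i ∈ Icc 1 k, t i ∣ N + i := fun i _ => ⟨d i ^ 2, by rw [← hd i]; ring⟩
  have h2 : ∀ i ∈ Icc 1 k, t i ∣ B M k := fun i hi => sqf_dvd (ht i) fun p hp hpt =>
    (h p hp).2 ((hpt.trans (h1 i hi)).trans (dvd_B hi))
  obtain ⟨w, hw⟩ := prod_dvd N (B M k) t k h1 h2
  have h4 : B N k = (∏ i ∈ Icc 1 k, t i) * (∏ i ∈ Icc 1 k, d i) ^ 2 := by
    conv_lhs => unfold B
    rw [← Finset.prod_pow, ← Finset.prod_mul_distrib]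
    refine Finset.prod_congr rfl fun i _ => ?_
    rw [← hd i]; ring
  have heq : w * B N k = cc k * (∏ i ∈ Icc 1 k, d i) ^ 2 * B M k := by
    rw [h4]
    calc w * ((∏ i ∈ Icc 1 k, t i) * (∏ i ∈ Icc 1 k, d i) ^ 2)
        = ((∏ i ∈ Icc 1 k, t i) * w) * (∏ i ∈ Icc 1 k, d i) ^ 2 := by ring
      _ = _ := by rw [← hw]; ring
  have hBM := B_pos M k
  have hBN := B_pos N k
  have hw0 : 1 ≤ w := by
    rcases Nat.eq_zero_or_pos w with h0 | h0
    · rw [h0, mul_zero] at hw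
      have := Nat.mul_pos (cc_pos k) hBM
      omega
    · exact h0
  have hd1 : 1 ≤ ∏ i ∈ Icc 1 k, d i := by
    rcases Nat.eq_zero_or_pos (∏ i ∈ Icc 1 k, d i) with h0 | h0
    · rw [h0] at h4
      simp at h4
      omega
    · exact h0
  refine ⟨d, fun i _ => ⟨t i, (hd i).symm⟩, hd1, w, hw0, ?_, heq⟩
  have h6 := B_strict k hk hlt
  by_contra hc
  push Not at hc
  have h7 : cc k * (∏ i ∈ Icc 1 k, d i) ^ 2 * B M k < w * B N k := by
    calc cc k * (∏ i ∈ Icc 1 k, d i) ^ 2 * B M k ≤ w * B M k := Nat.mul_le_mul_right _ hc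
      _ < w * B N k := Nat.mul_lt_mul_of_pos_left h6 hw0
  omega

/-- two solutions of `w B (N, k) = a B (M, k)` are far apart -/
lemma gap2 {k M N M' N' a w : ℕ} (hk : 2 ≤ k) (hMN : M < N) (hMN' : M' < N') (hNN : N < N')
    (h1 : w * B N k = a * B M k) (h2 : w * B N' k = a * B M' k) (hw : 1 ≤ w) (hwa : w ≤ a) :
    w * N < a * k ^ 2 * (N' - N) := by
  have pM := B_pos M k
  have pN := B_pos N k
  have pM' := B_pos M' k
  have pN' := B_pos N' k
  have ha0 : 1 ≤ a := hw.trans hwa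
  -- `M ≤ M'`
  have hMM : M ≤ M' := by
    by_contra hc
    push Not at hc
    have e1 := B_strict k (by omega) hNN
    have e2 := B_mono k hc.le
    have e3 : w * B N k < w * B N' k := Nat.mul_lt_mul_of_pos_left e1 hw
    have e4 : a * B M' k ≤ a * B M k := Nat.mul_le_mul_left _ e2
    omega
  -- the product identity
  have hprod : B M k * B N' k = B M' k * B N k := by
    have : (a * w) * (B M k * B N' k) = (a * w) * (B M' k * B N k) := by
      calc (a * w) * (B M k * B N' k) = (a * B M k) * (w * B N' k) := by ring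
        _ = (w * B N k) * (a * B M' k) := by rw [← h1, h2]
        _ = (a * w) * (B M' k * B N k) := by ring
    exact Nat.eq_of_mul_eq_mul_left (Nat.mul_pos ha0 hw) this
  have hFG := hFG_of hprod
  have hkz : (2 : ℤ) ≤ k := by exact_mod_cast hk
  have hMz : (0 : ℤ) ≤ M := by positivity
  have hMM'z : (M : ℤ) ≤ M' := by exact_mod_cast hMM
  have hMNz : (M : ℤ) + 1 ≤ N := by exact_mod_cast hMN
  have hMNz' : (M' : ℤ) + 1 ≤ N' := by exact_mod_cast hMN'
  have hNNz : (N : ℤ) + 1 ≤ N' := by exact_mod_cast hNN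
  have core := gap_core hk (fun i => 2 * (i : ℤ) - k - 1) (by
    intro i hi
    rw [mem_Icc] at hi
    have e1 : (1 : ℤ) ≤ i := by exact_mod_cast hi.1
    have e2 : (i : ℤ) ≤ k := by exact_mod_cast hi.2
    apply sq_le_sq'
    · linarith
    · linarith) (by
    apply sq_pos_of_neg
    push_cast
    linarith) (x := 2 * (M : ℤ) + k + 1) (y := 2 * (N : ℤ) + k + 1) (x' := 2 * (M' : ℤ) + k + 1)
    (y' := 2 * (N' : ℤ) + k + 1) (by linarith) (by linarith) (by linarith) (by linarith) hFG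
  clear hFG
  -- `w y' ≤ a x'`
  have e1 : (N' + 1) * B M' k ≤ (M' + 1) * B N' k := by
    obtain ⟨k', rfl⟩ : ∃ k', k = k' + 1 := ⟨k - 1, by omega⟩
    exact B_first hMN'.le k'
  have e3 : (w * (N' + 1)) * B M' k ≤ (a * (M' + 1)) * B M' k := by
    calc (w * (N' + 1)) * B M' k = w * ((N' + 1) * B M' k) := by ring
      _ ≤ w * ((M' + 1) * B N' k) := Nat.mul_le_mul_left _ e1
      _ = (M' + 1) * (w * B N' k) := by ring
      _ = (a * (M' + 1)) * B M' k := by rw [h2]; ring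
  have e4 : w * (N' + 1) ≤ a * (M' + 1) := Nat.le_of_mul_le_mul_right e3 pM'
  have e5 : (w : ℤ) * ((N' : ℤ) + 1) ≤ a * ((M' : ℤ) + 1) := by exact_mod_cast e4
  have e6 : (1 : ℤ) ≤ w := by exact_mod_cast hw
  have e6' : (w : ℤ) ≤ a := by exact_mod_cast hwa
  have hM'z : (0 : ℤ) ≤ M' := by positivity
  clear e1 e3 e4 pM pN pM' pN' hprod h1 h2
  set x' : ℤ := 2 * (M' : ℤ) + k + 1 with hx'
  set y : ℤ := 2 * (N : ℤ) + k + 1 with hy
  set y' : ℤ := 2 * (N' : ℤ) + k + 1 with hy'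
  have hx'0 : 0 < x' := by rw [hx']; linarith
  have hyy' : y < y' := by rw [hy, hy']; linarith
  have m3 : (w : ℤ) * y' ≤ a * x' := by
    have e7 : (w : ℤ) * (k - 1) ≤ a * (k - 1) := mul_le_mul_of_nonneg_right e6' (by linarith)
    have e8 : (w : ℤ) * y' = 2 * (w * ((N' : ℤ) + 1)) + w * (k - 1) := by rw [hy']; ring
    have e9 : (a : ℤ) * x' = 2 * (a * ((M' : ℤ) + 1)) + a * (k - 1) := by rw [hx']; ring
    rw [e8, e9]
    linarith
  have m4 : (w : ℤ) * ((k : ℤ) ^ 2 * (y' ^ 2 - y ^ 2)) ≤ (2 * x') * ((a : ℤ) * k ^ 2 * (y' - y)) := by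
    have e8 : (w : ℤ) * (y' + y) ≤ 2 * (a * x') := by
      have : (w : ℤ) * y ≤ w * y' := mul_le_mul_of_nonneg_left hyy'.le (by linarith)
      linarith
    have e9 : 0 ≤ y' - y := by linarith
    calc (w : ℤ) * ((k : ℤ) ^ 2 * (y' ^ 2 - y ^ 2)) = (k : ℤ) ^ 2 * ((y' - y) * (w * (y' + y))) := by ring
      _ ≤ (k : ℤ) ^ 2 * ((y' - y) * (2 * (a * x'))) := by gcongr
      _ = _ := by ring
  have m5 : w * y < (a : ℤ) * k ^ 2 * (y' - y) := by
    have e10 : (2 * x') * (w * y) < (2 * x') * ((a : ℤ) * k ^ 2 * (y' - y)) := by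
      have e11 : (2 * x') * (w * y) = w * (2 * (x' * y)) := by ring
      rw [e11]
      exact lt_of_lt_of_le (mul_lt_mul_of_pos_left core (by linarith)) m4
    exact lt_of_mul_lt_mul_left e10 (by positivity)
  have m6 : (w : ℤ) * (N : ℤ) < (a : ℤ) * k ^ 2 * ((N' : ℤ) - N) := by
    have e12 : (a : ℤ) * k ^ 2 * (y' - y) = 2 * ((a : ℤ) * k ^ 2 * ((N' : ℤ) - N)) := by rw [hy, hy']; ring
    rw [e12, hy] at m5
    have e13 : 0 ≤ (w : ℤ) * (k + 1) := by positivity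
    have e14 : (w : ℤ) * (2 * (N : ℤ) + k + 1) = 2 * (w * N) + w * (k + 1) := by ring
    linarith
  have e7 : ((N' - N : ℕ) : ℤ) = (N' : ℤ) - N := by rw [Nat.cast_sub hNN.le]
  have m7 : (w : ℤ) * (N : ℤ) < (a : ℤ) * k ^ 2 * ((N' - N : ℕ) : ℤ) := by rw [e7]; exact m6
  exact_mod_cast m7

/-- spacing for a function -/
lemma card_spaced' (f : ℕ → ℝ) (Z γ : ℝ) (hγ : 0 < γ) (S : Finset ℕ) (hS : ∀ n ∈ S, 0 ≤ f n ∧ f n ≤ Z)
    (hZ : 0 ≤ Z) (hgap : ∀ n ∈ S, ∀ n' ∈ S, n < n' → γ ≤ f n' - f n) : (S.card : ℝ) ≤ Z / γ + 1 := by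
  classical
  have h1 : S.card ≤ (range (⌊Z / γ⌋₊ + 1)).card := by
    refine Finset.card_le_card_of_injOn (fun n => ⌊f n / γ⌋₊) ?_ ?_
    · intro n hn
      simp only [coe_range, Set.mem_Iio]
      refine Nat.lt_succ_of_le (Nat.floor_le_floor ?_)
      have := (hS n hn).2
      gcongr
    · intro n hn n' hn' heq
      simp only at heq
      have key : ∀ a ∈ S, ∀ b ∈ S, a < b → ⌊f a / γ⌋₊ < ⌊f b / γ⌋₊ := by
        intro a ha b hb hab
        have e1 := hgap a ha b hb hab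
        have e2 : f a / γ + 1 ≤ f b / γ := by
          rw [div_add_one hγ.ne']
          gcongr
          linarith
        have e0 := (hS a ha).1
        have e3 : ⌊f a / γ + 1⌋₊ = ⌊f a / γ⌋₊ + 1 := Nat.floor_add_one (by positivity)
        have e4 := Nat.floor_le_floor e2
        omega
      rcases lt_trichotomy n n' with h | h | h
      · have := key n hn n' hn' h; omega
      · exact h
      · have := key n' hn' n hn h; omega
  rw [card_range] at h1
  have h2 : (⌊Z / γ⌋₊ : ℝ) ≤ Z / γ := Nat.floor_le (by positivity)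
  have h3 : (S.card : ℝ) ≤ ⌊Z / γ⌋₊ + 1 := by exact_mod_cast h1
  linarith

/-- solutions of `w B (n, k) = a B (m, k)` up to `X` -/
lemma card_ratio (k a w X : ℕ) (hk : 2 ≤ k) (hw : 1 ≤ w) (hwa : w ≤ a) (hX : 1 ≤ X) (S : Finset ℕ)
    (hS : ∀ n ∈ S, n ≤ X ∧ ∃ m : ℕ, m < n ∧ w * B n k = a * B m k) :
    (S.card : ℝ) ≤ 2 * a * k ^ 2 * Real.log X * (1 / (w : ℝ)) + 1 := by
  have hkr : (2 : ℝ) ≤ k := by exact_mod_cast hk
  have hwr : (1 : ℝ) ≤ w := by exact_mod_cast hw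
  have hwar : (w : ℝ) ≤ a := by exact_mod_cast hwa
  have har : (1 : ℝ) ≤ a := hwr.trans hwar
  have hXr : (1 : ℝ) ≤ X := by exact_mod_cast hX
  set δ : ℝ := w / (a * k ^ 2) with hδ
  have hδ0 : 0 < δ := by positivity
  have hδ1 : δ ≤ 1 := by
    rw [hδ, div_le_one (by positivity)]
    have : (1 : ℝ) ≤ (k : ℝ) ^ 2 := by nlinarith
    nlinarith
  have h := card_spaced' (fun n => Real.log n) (Real.log X) (δ / 2) (by positivity) S (fun n hn => by
      obtain ⟨hnX, m, hmn, -⟩ := hS n hn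
      have h1 : (1 : ℝ) ≤ n := by
        have : 1 ≤ n := by omega
        exact_mod_cast this
      exact ⟨Real.log_nonneg h1, Real.log_le_log (by linarith) (by exact_mod_cast hnX)⟩)
      (Real.log_nonneg hXr) (by
    intro n hn n' hn' hlt
    obtain ⟨hnX, m, hmn, he⟩ := hS n hn
    obtain ⟨hnX', m', hmn', he'⟩ := hS n' hn'
    have h3 := gap2 hk hmn hmn' hlt he he' hw hwa
    have h4 : (w : ℝ) * n < a * k ^ 2 * ((n' : ℝ) - n) := by
      have : (w : ℝ) * n < a * k ^ 2 * ((n' - n : ℕ) : ℝ) := by exact_mod_cast h3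
      rwa [Nat.cast_sub hlt.le] at this
    have hn0 : (0 : ℝ) < n := by
      have : 0 < n := by omega
      exact_mod_cast this
    have h5 : (1 + δ) * (n : ℝ) ≤ n' := by
      have h6 : δ * n ≤ (n' : ℝ) - n := by
        rw [hδ, div_mul_eq_mul_div, div_le_iff₀ (by positivity)]
        linarith
      linarith
    have h7 : Real.log ((1 + δ) * n) ≤ Real.log n' := Real.log_le_log (by positivity) h5
    rw [Real.log_mul (by positivity) hn0.ne'] at h7
    have h8 : δ / 2 ≤ Real.log (1 + δ) := by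
      have h9 := Real.one_sub_inv_le_log_of_pos (show 0 < 1 + δ by linarith)
      have h10 : δ / 2 ≤ 1 - (1 + δ)⁻¹ := by
        have e1 : 1 - (1 + δ)⁻¹ = δ / (1 + δ) := by field_simp; ring
        rw [e1]
        gcongr
        linarith
      linarith
    linarith)
  refine h.trans (le_of_eq ?_)
  rw [hδ]
  field_simp

end Pool.Agent.Helper577Blk
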