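import Pool.Agent.helper577_blk.SharpDiag

set_option autoImplicit false

open Finset

namespace Pool.Agent.Helper577Blk

open Pool.Agent.Helper577Eps (Sim sqf_dvd tail_sq' harm_le)

/-- a uniform bound for the powers of the divisor function -/
lemma tau_pow (k : ℕ) (ε : ℝ) (hε : 0 < ε) : ∃ T : ℝ, 1 ≤ T ∧ ∀ X : ℕ, 1 ≤ X → ∀ e : ℕ, 1 ≤ e → e ≤ X →
    (e.divisors.card : ℝ) ^ k ≤ T * (X : ℝ) ^ ε := by
  rcases Nat.eq_zero_or_pos k with h0 | hk
  · subst h0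
    refine ⟨1, le_rfl, fun X hX e _ _ => ?_⟩
    have : (1 : ℝ) ≤ (X : ℝ) ^ ε := Real.one_le_rpow (by exact_mod_cast hX) hε.le
    simpa using this
  have hkr : (0 : ℝ) < k := by exact_mod_cast hk
  obtain ⟨C, hC, hdiv⟩ := Pool.Agent.H510R2.divisor_bound (ε / k) (by positivity)
  refine ⟨(C + 1) ^ k, one_le_pow₀ (by linarith), fun X hX e he heX => ?_⟩
  have hX1r : (1 : ℝ) ≤ X := by exact_mod_cast hX
  have h1 := hdiv e he
  have h2 : (e : ℝ) ^ (ε / k) ≤ (X : ℝ) ^ (ε / k) := by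
    have : (e : ℝ) ≤ X := by exact_mod_cast heX
    gcongr
  calc (e.divisors.card : ℝ) ^ k ≤ ((C + 1) * (X : ℝ) ^ (ε / k)) ^ k := by
        have h3 : C * (e : ℝ) ^ (ε / k) ≤ (C + 1) * (X : ℝ) ^ (ε / k) := by
          gcongr
          linarith
        gcongr
        exact h1.trans h3
    _ = (C + 1) ^ k * ((X : ℝ) ^ (ε / k)) ^ k := by rw [mul_pow]
    _ = (C + 1) ^ k * (X : ℝ) ^ ε := by
      rw [← Real.rpow_natCast ((X : ℝ) ^ (ε / k)) k, ← Real.rpow_mul (by positivity)]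
      congr 2
      field_simp

lemma log_pow_bound (c : ℝ) (hc : 1 ≤ c) (k : ℕ) (ε : ℝ) (hε : 0 < ε) : ∃ L : ℝ, 0 < L ∧ ∀ X : ℕ, 1 ≤ X →
    2 * (k : ℝ) ^ 2 * Real.log X * (1 + Real.log (c * X)) + 1 ≤ L * (X : ℝ) ^ ε := by
  have hlc : 0 ≤ Real.log c := Real.log_nonneg hc
  refine ⟨2 * (k : ℝ) ^ 2 * (2 / ε) * (1 + Real.log c + 2 / ε) + 1, by positivity, fun X hX => ?_⟩
  have hX1r : (1 : ℝ) ≤ X := by exact_mod_cast hX
  have hX0r : (0 : ℝ) < X := by linarith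
  have h1 : Real.log X ≤ (2 / ε) * (X : ℝ) ^ (ε / 2) := by
    refine (Real.log_le_rpow_div hX0r.le (show 0 < ε / 2 by positivity)).trans (le_of_eq ?_)
    field_simp
  have h2 : (1 : ℝ) ≤ (X : ℝ) ^ (ε / 2) := Real.one_le_rpow hX1r (by positivity)
  have h3 : 1 + Real.log (c * X) ≤ (1 + Real.log c + 2 / ε) * (X : ℝ) ^ (ε / 2) := by
    rw [Real.log_mul (by linarith) hX0r.ne']
    have : (1 + Real.log c) ≤ (1 + Real.log c) * (X : ℝ) ^ (ε / 2) := le_mul_of_one_le_right (by linarith) h2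
    linarith
  have h4 : (X : ℝ) ^ ε = (X : ℝ) ^ (ε / 2) * (X : ℝ) ^ (ε / 2) := by
    rw [← Real.rpow_add hX0r]
    congr 1
    ring
  have h5 : (1 : ℝ) ≤ (X : ℝ) ^ ε := Real.one_le_rpow hX1r hε.le
  have hlX : 0 ≤ Real.log X := Real.log_nonneg hX1r
  have hlcX : 0 ≤ 1 + Real.log (c * X) := by
    have := Real.log_nonneg (show 1 ≤ c * X by nlinarith)
    linarith
  calc 2 * (k : ℝ) ^ 2 * Real.log X * (1 + Real.log (c * X)) + 1
      ≤ 2 * (k : ℝ) ^ 2 * ((2 / ε) * (X : ℝ) ^ (ε / 2)) * ((1 + Real.log c + 2 / ε) * (X : ℝ) ^ (ε / 2)) +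
        (X : ℝ) ^ ε := by gcongr
    _ = _ := by rw [h4]; ring

theorem GG_sharp (k : ℕ) (hk : 2 ≤ k) (ε : ℝ) (hε : 0 < ε) : ∃ K : ℝ, 0 < K ∧ ∀ X : ℕ, k ≤ X →
    ((GG k X).card : ℝ) ≤ K * (X : ℝ) ^ (3 / 4 + ε) := by
  classical
  obtain ⟨T, hT1, hTb⟩ := tau_pow k ε hε
  obtain ⟨L, hL0, hLb⟩ := log_pow_bound (cc k) (by exact_mod_cast cc_pos k) k ε hε
  have hccr : (1 : ℝ) ≤ cc k := by exact_mod_cast cc_pos k
  refine ⟨8 * k + T * (4 * cc k + 1) + cc k * L, by positivity, fun X hX => ?_⟩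
  have hX0 : 0 < X := by omega
  have hX0r : (0 : ℝ) < X := by exact_mod_cast hX0
  have hX1r : (1 : ℝ) ≤ X := by exact_mod_cast hX0
  set Y : ℝ := (X : ℝ) ^ (1 / 4 : ℝ) with hY
  have hY1 : 1 ≤ Y := Real.one_le_rpow hX1r (by norm_num)
  have hY4 : Y ^ 4 = X := by
    rw [hY, ← Real.rpow_natCast, ← Real.rpow_mul hX0r.le]
    norm_num
  have hY3 : Y ^ 3 = (X : ℝ) ^ (3 / 4 : ℝ) := by
    rw [hY, ← Real.rpow_natCast, ← Real.rpow_mul hX0r.le]
    norm_num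
  set Q : ℝ := (X : ℝ) ^ ε with hQ
  have hQ1 : 1 ≤ Q := Real.one_le_rpow hX1r hε.le
  have hfinal : (X : ℝ) ^ (3 / 4 + ε) = Y ^ 3 * Q := by rw [hY3, hQ, ← Real.rpow_add hX0r]
  set E := ⌊Y⌋₊ with hE
  have hE1 : 1 ≤ E := Nat.le_floor (by simpa using hY1)
  have hE1r : (1 : ℝ) ≤ E := by exact_mod_cast hE1
  have hEY : (E : ℝ) ≤ Y := Nat.floor_le (by positivity)
  have hEY2 : Y ≤ 2 * E := by
    have := Nat.lt_floor_add_one Y
    rw [← hE] at this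
    linarith
  have h2E : 2 / (E : ℝ) ≤ 4 / Y := by
    rw [div_le_div_iff₀ (by positivity) (by positivity)]
    linarith
  have hE4 : E ^ 4 ≤ X := by
    have : (E : ℝ) ^ 4 ≤ X := by rw [← hY4]; gcongr
    exact_mod_cast this
  have hE2 : E ^ 2 ≤ X := (Nat.pow_le_pow_right hE1 (by norm_num)).trans hE4
  -- the two parts
  set G1 := (GG k X).filter (fun n => ∃ d : ℕ → ℕ, (∀ i ∈ Icc 1 k, d i ^ 2 ∣ n + i) ∧
    E < ∏ i ∈ Icc 1 k, d i) with hG1
  set S : ℕ → ℕ → Finset ℕ := fun e w => (range (X + 1)).filter (fun n : ℕ =>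
    ∃ m : ℕ, m < n ∧ w * B n k = (cc k * e ^ 2) * B m k) with hS
  set G2 := (Icc 1 E).biUnion (fun e => (Icc 1 (cc k * e ^ 2)).biUnion (fun w => S e w)) with hG2
  have hsub : GG k X ⊆ G1 ∪ G2 := by
    intro n hn
    have hn0 := hn
    unfold GG at hn
    rw [mem_filter] at hn
    obtain ⟨hnX, m, hmn, hsim⟩ := hn
    obtain ⟨d, hd, hd1, w, hw, hwa, heq⟩ := diag_ratio2 (by omega) hsim (by omega)
    rw [mem_union]
    by_cases c1 : E < ∏ i ∈ Icc 1 k, d i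
    · left; rw [hG1, mem_filter]; exact ⟨hn0, d, hd, c1⟩
    · right
      push Not at c1
      rw [hG2, mem_biUnion]
      refine ⟨∏ i ∈ Icc 1 k, d i, mem_Icc.2 ⟨hd1, c1⟩, ?_⟩
      rw [mem_biUnion]
      refine ⟨w, mem_Icc.2 ⟨hw, hwa.le⟩, ?_⟩
      simp only [hS, mem_filter]
      exact ⟨hnX, m, by omega, heq⟩
  have b1 : (G1.card : ℝ) ≤ (8 * k + T * (4 * cc k + 1)) * (Y ^ 3 * Q) := by
    have h1 := card_V k E X hE1 (T * Q) (fun e he => by
      rw [mem_Ioc] at he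
      exact hTb X hX0 e (by omega) (by omega)) (by positivity) G1 (fun n hn => by
      rw [hG1, mem_filter] at hn
      refine ⟨?_, hn.2⟩
      have := hn.1
      unfold GG at this
      rw [mem_filter, mem_range] at this
      omega)
    refine h1.trans ?_
    have h3 : (X : ℝ) + k ≤ 2 * X := by
      have : (k : ℝ) ≤ X := by exact_mod_cast hX
      linarith
    have hXY : (X : ℝ) * (4 / Y) = 4 * Y ^ 3 := by
      rw [← hY4]
      field_simp
    have e1 : (k : ℝ) * (((X : ℝ) + k) * (2 / (E : ℝ))) ≤ 8 * k * (Y ^ 3 * Q) := by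
      calc (k : ℝ) * (((X : ℝ) + k) * (2 / (E : ℝ))) ≤ k * ((2 * X) * (4 / Y)) := by gcongr
        _ = 2 * k * (X * (4 / Y)) := by ring
        _ = 8 * k * (Y ^ 3 * 1) := by rw [hXY]; ring
        _ ≤ 8 * k * (Y ^ 3 * Q) := by gcongr
    have e2 : (cc k : ℝ) * X * (2 / (E : ℝ)) + (E : ℝ) ^ 2 ≤ (4 * cc k + 1) * Y ^ 3 := by
      have e3 : (cc k : ℝ) * X * (2 / (E : ℝ)) ≤ 4 * cc k * Y ^ 3 := by
        calc (cc k : ℝ) * X * (2 / (E : ℝ)) ≤ cc k * X * (4 / Y) := by gcongr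
          _ = cc k * (X * (4 / Y)) := by ring
          _ = 4 * cc k * Y ^ 3 := by rw [hXY]; ring
      have e4 : (E : ℝ) ^ 2 ≤ Y ^ 3 := by
        calc (E : ℝ) ^ 2 ≤ Y ^ 2 := by gcongr
          _ ≤ Y ^ 3 := pow_le_pow_right₀ hY1 (by norm_num)
      linarith
    have e5 : T * Q * ((cc k : ℝ) * X * (2 / (E : ℝ)) + (E : ℝ) ^ 2) ≤ T * Q * ((4 * cc k + 1) * Y ^ 3) := by
      gcongr
    calc (k : ℝ) * (((X : ℝ) + k) * (2 / (E : ℝ))) + T * Q * (cc k * X * (2 / (E : ℝ)) + (E : ℝ) ^ 2)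
        ≤ 8 * k * (Y ^ 3 * Q) + T * Q * ((4 * cc k + 1) * Y ^ 3) := add_le_add e1 e5
      _ = _ := by ring
  have b2 : (G2.card : ℝ) ≤ cc k * L * (Y ^ 3 * Q) := by
    have h1 : (G2.card : ℝ) ≤ ∑ e ∈ Icc 1 E, ∑ w ∈ Icc 1 (cc k * e ^ 2), ((S e w).card : ℝ) := by
      have h3 : G2.card ≤ _ := Finset.card_biUnion_le.trans (Finset.sum_le_sum fun e _ => Finset.card_biUnion_le)
      exact_mod_cast h3
    refine h1.trans ?_
    have h2 : ∀ e ∈ Icc 1 E, ∑ w ∈ Icc 1 (cc k * e ^ 2), ((S e w).card : ℝ) ≤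
        (cc k * (E : ℝ) ^ 2) * (L * Q) := by
      intro e he
      rw [mem_Icc] at he
      set a := cc k * e ^ 2 with ha
      have ha1 : 1 ≤ a := Nat.mul_pos (cc_pos k) (Nat.pow_pos (by omega))
      have ha1r : (1 : ℝ) ≤ a := by exact_mod_cast ha1
      have haE : (a : ℝ) ≤ cc k * (E : ℝ) ^ 2 := by
        rw [ha]
        push_cast
        have : (e : ℝ) ≤ E := by exact_mod_cast he.2
        gcongr
      have haX : (a : ℝ) ≤ cc k * X := by
        refine haE.trans ?_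
        have : (E : ℝ) ^ 2 ≤ X := by exact_mod_cast hE2
        gcongr
      have h3 : ∀ w ∈ Icc 1 a, ((S e w).card : ℝ) ≤ 2 * a * k ^ 2 * Real.log X * (1 / (w : ℝ)) + 1 := by
        intro w hw
        rw [mem_Icc] at hw
        refine card_ratio k a w X hk hw.1 hw.2 hX0 (S e w) fun n hn => ?_
        simp only [hS, mem_filter, mem_range] at hn
        exact ⟨by omega, hn.2⟩
      refine (Finset.sum_le_sum h3).trans ?_
      rw [Finset.sum_add_distrib, ← Finset.mul_sum]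
      have hlX : 0 ≤ Real.log X := Real.log_nonneg hX1r
      have h4 : ∑ w ∈ Icc 1 a, 1 / (w : ℝ) ≤ 1 + Real.log (cc k * X) := by
        have := harm_le a
        have h5 : Real.log a ≤ Real.log (cc k * X) := Real.log_le_log (by linarith) haX
        linarith
      have h6 : ∑ _w ∈ Icc 1 a, (1 : ℝ) = a := by
        rw [Finset.sum_const, nsmul_eq_mul, Nat.card_Icc, mul_one, Nat.add_sub_cancel]
      rw [h6]
      have h7 := hLb X hX0
      calc 2 * (a : ℝ) * k ^ 2 * Real.log X * ∑ w ∈ Icc 1 a, 1 / (w : ℝ) + a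
          ≤ 2 * a * k ^ 2 * Real.log X * (1 + Real.log (cc k * X)) + a := by gcongr
        _ = a * (2 * (k : ℝ) ^ 2 * Real.log X * (1 + Real.log (cc k * X)) + 1) := by ring
        _ ≤ a * (L * Q) := by gcongr
        _ ≤ (cc k * (E : ℝ) ^ 2) * (L * Q) := by gcongr
    refine (Finset.sum_le_sum h2).trans ?_
    rw [Finset.sum_const, nsmul_eq_mul, Nat.card_Icc, Nat.add_sub_cancel]
    have h8 : (E : ℝ) ^ 3 ≤ Y ^ 3 := by gcongr
    calc (E : ℝ) * (cc k * (E : ℝ) ^ 2 * (L * Q)) = cc k * L * ((E : ℝ) ^ 3 * Q) := by ring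
      _ ≤ cc k * L * (Y ^ 3 * Q) := by gcongr
  have hc := (Finset.card_le_card hsub).trans (Finset.card_union_le _ _)
  have hc' : ((GG k X).card : ℝ) ≤ G1.card + G2.card := by exact_mod_cast hc
  rw [hfinal]
  calc ((GG k X).card : ℝ) ≤ G1.card + G2.card := hc'
    _ ≤ (8 * k + T * (4 * cc k + 1)) * (Y ^ 3 * Q) + cc k * L * (Y ^ 3 * Q) := add_le_add b1 b2
    _ = _ := by ring

/-- equal lengths, sharp form -/
theorem PR_diag_sharp (k : ℕ) (hk2 : 2 ≤ k) (ε : ℝ) (hε : 0 < ε) : ∃ C : ℝ, 0 < C ∧ ∀ X : ℕ, 1 ≤ X →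
    ((PR k k X).card : ℝ) ≤ C * (X : ℝ) ^ (3 / 4 + ε) := by
  classical
  have hk1 : 0 < k := by omega
  obtain ⟨K, hK, hG⟩ := GG_sharp k hk2 (ε / 2) (by positivity)
  set η : ℝ := min (ε / 4) 1 with hη
  have hη0 : 0 < η := by positivity
  have hη1 : η ≤ 1 := min_le_right _ _
  have hη2 : η ≤ ε / 4 := min_le_left _ _
  obtain ⟨T, hT, hTb⟩ := T_bound k hk1 η hη0 hη1
  refine ⟨K * T, by positivity, fun X hX => ?_⟩
  have hX0r : (0 : ℝ) < X := by exact_mod_cast hX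
  have hX1r : (1 : ℝ) ≤ X := by exact_mod_cast hX
  by_cases hkX : k ≤ X
  swap
  · have : PR k k X = ∅ := by
      rw [Finset.eq_empty_iff_forall_notMem]
      intro q hq
      unfold PR at hq
      rw [mem_filter, mem_product, mem_range, mem_range] at hq
      omega
    rw [this]
    simp only [card_empty, Nat.cast_zero]
    positivity
  refine (PR_diag_card k X hk2 _ (hTb X hkX)).trans ?_
  have hexp : (X : ℝ) ^ (3 / 4 + ε / 2) * (X : ℝ) ^ (2 * η) ≤ (X : ℝ) ^ (3 / 4 + ε) := by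
    rw [← Real.rpow_add hX0r]
    refine Real.rpow_le_rpow_of_exponent_le hX1r ?_
    linarith
  calc ((GG k X).card : ℝ) * (T * (X : ℝ) ^ (2 * η))
      ≤ (K * (X : ℝ) ^ (3 / 4 + ε / 2)) * (T * (X : ℝ) ^ (2 * η)) := by
        gcongr
        exact hG X hkX
    _ = K * T * ((X : ℝ) ^ (3 / 4 + ε / 2) * (X : ℝ) ^ (2 * η)) := by ring
    _ ≤ _ := by gcongr

end Pool.Agent.Helper577Blk
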