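import Pool.Agent.helper577_blk.SharpDiag2

set_option autoImplicit false

open Finset

namespace Pool.Agent.Helper577Blk

open Pool.Agent.Helper577Eps (Sim sqf_dvd tail_sq' harm_le)

lemma large_prod {n1 n2 k1 k2 : ℕ} (h : Sim (B n1 k1) (B n2 k2)) :
    ∃ d : ℕ → ℕ, (∀ i ∈ Icc 1 k1, d i ^ 2 ∣ n1 + i) ∧
      B n1 k1 ≤ cc k1 * B n2 k2 * (∏ i ∈ Icc 1 k1, d i) ^ 2 := by
  choose t d hd ht using fun i => Nat.sq_mul_squarefree (n1 + i)
  have h1 : ∀ i ∈ Icc 1 k1, t i ∣ n1 + i := fun i _ => ⟨d i ^ 2, by rw [← hd i]; ring⟩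
  have h2 : ∀ i ∈ Icc 1 k1, t i ∣ B n2 k2 := fun i hi => sqf_dvd (ht i) fun p hp hpt =>
    (h p hp).1 ((hpt.trans (h1 i hi)).trans (dvd_B hi))
  have h3 := Nat.le_of_dvd (Nat.mul_pos (cc_pos k1) (B_pos n2 k2)) (prod_dvd n1 (B n2 k2) t k1 h1 h2)
  have h4 : B n1 k1 = (∏ i ∈ Icc 1 k1, t i) * (∏ i ∈ Icc 1 k1, d i) ^ 2 := by
    conv_lhs => unfold B
    rw [← Finset.prod_pow, ← Finset.prod_mul_distrib]
    refine Finset.prod_congr rfl fun i _ => ?_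
    rw [← hd i]; ring
  refine ⟨d, fun i _ => ⟨t i, (hd i).symm⟩, ?_⟩
  rw [h4]
  exact Nat.mul_le_mul_right _ h3

open Classical in
/-- first members of pairs with `n2 ≤ 2 (n1 + k1)` -/
noncomputable def FS (k1 k2 X : ℕ) : Finset ℕ :=
  (range (X + 1)).filter (fun n1 => ∃ n2 ≤ X, n1 + k1 ≤ n2 ∧ n2 ≤ 2 * (n1 + k1) ∧ Sim (B n1 k1) (B n2 k2))

open Classical in
/-- pairs with `n2 ≤ 2 (n1 + k1)` -/
noncomputable def SS (k1 k2 X : ℕ) : Finset (ℕ × ℕ) :=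
  (range (X + 1) ×ˢ range (X + 1)).filter (fun q => q.1 + k1 ≤ q.2 ∧ q.2 ≤ 2 * (q.1 + k1) ∧
    Sim (B q.1 k1) (B q.2 k2))

theorem FS_sharp (k1 k2 : ℕ) (h12 : k2 < k1) (ε : ℝ) (hε : 0 < ε) : ∃ K : ℝ, 0 < K ∧ ∀ X : ℕ, k1 ≤ X →
    ((FS k1 k2 X).card : ℝ) ≤ K * (X : ℝ) ^ (2 / 3 + ε) := by
  classical
  have hk1 : 1 ≤ k1 := by omega
  obtain ⟨T, hT1, hTb⟩ := tau_pow k1 ε hε
  have hccr : (1 : ℝ) ≤ cc k1 := by exact_mod_cast cc_pos k1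
  set K1 : ℕ := cc k1 * (5 * k1) ^ k2 with hK1
  have hK10 : 1 ≤ K1 := Nat.mul_pos (cc_pos k1) (Nat.pow_pos (by omega))
  refine ⟨(K1 + 1) + 8 * k1 + T * (4 * cc k1 + 1), by positivity, fun X hX => ?_⟩
  have hX0 : 0 < X := by omega
  have hX0r : (0 : ℝ) < X := by exact_mod_cast hX0
  have hX1r : (1 : ℝ) ≤ X := by exact_mod_cast hX0
  set Y : ℝ := (X : ℝ) ^ (1 / 3 : ℝ) with hY
  have hY1 : 1 ≤ Y := Real.one_le_rpow hX1r (by norm_num)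
  have hY3 : Y ^ 3 = X := by
    rw [hY, ← Real.rpow_natCast, ← Real.rpow_mul hX0r.le]
    norm_num
  have hY2 : Y ^ 2 = (X : ℝ) ^ (2 / 3 : ℝ) := by
    rw [hY, ← Real.rpow_natCast, ← Real.rpow_mul hX0r.le]
    norm_num
  set Q : ℝ := (X : ℝ) ^ ε with hQ
  have hQ1 : 1 ≤ Q := Real.one_le_rpow hX1r hε.le
  have hfinal : (X : ℝ) ^ (2 / 3 + ε) = Y ^ 2 * Q := by rw [hY2, hQ, ← Real.rpow_add hX0r]
  set E := ⌊Y⌋₊ with hE
  have hE1 : 1 ≤ E := Nat.le_floor (by simpa using hY1)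
  have hE1r : (1 : ℝ) ≤ E := by exact_mod_cast hE1
  have hEY : (E : ℝ) ≤ Y := Nat.floor_le (by positivity)
  have hEY2 : Y ≤ 2 * E := by
    have := Nat.lt_floor_add_one Y
    rw [← hE] at this
    linarith
  have h2E : 2 / (E : ℝ) ≤ 4 / Y := by
    rw [div_le_div_iff₀ (by positivity) (by positivity)]
    linarith
  have hE3 : E ^ 3 ≤ X := by
    have : (E : ℝ) ^ 3 ≤ X := by rw [← hY3]; gcongr
    exact_mod_cast this
  have hE2 : E ^ 2 ≤ X := (Nat.pow_le_pow_right hE1 (by norm_num)).trans hE3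
  set G0 := (range (X + 1)).filter (fun n => n ≤ K1 * E ^ 2) with hG0
  set G1 := (FS k1 k2 X).filter (fun n => ∃ d : ℕ → ℕ, (∀ i ∈ Icc 1 k1, d i ^ 2 ∣ n + i) ∧
    E < ∏ i ∈ Icc 1 k1, d i) with hG1
  have hsub : FS k1 k2 X ⊆ G0 ∪ G1 := by
    intro n hn
    have hn0 := hn
    unfold FS at hn
    rw [mem_filter] at hn
    obtain ⟨hnX, n2, hn2X, hle, hle2, hsim⟩ := hn
    rw [mem_union]
    by_cases c0 : n ≤ K1 * E ^ 2
    · left; rw [hG0, mem_filter]; exact ⟨hnX, c0⟩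
    · right
      push Not at c0
      obtain ⟨d, hd, hB⟩ := large_prod hsim
      rw [hG1, mem_filter]
      refine ⟨hn0, d, hd, ?_⟩
      by_contra hcon
      push Not at hcon
      have hn1 : 1 ≤ n := by omega
      have e1 : B n2 k2 ≤ (5 * k1 * n) ^ k2 := (B_le n2 k2).trans (Nat.pow_le_pow_left (by nlinarith) _)
      have e2 : n ^ k1 ≤ K1 * E ^ 2 * n ^ k2 := by
        calc n ^ k1 ≤ B n k1 := le_B n k1
          _ ≤ cc k1 * B n2 k2 * (∏ i ∈ Icc 1 k1, d i) ^ 2 := hB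
          _ ≤ cc k1 * (5 * k1 * n) ^ k2 * E ^ 2 := by gcongr
          _ = K1 * E ^ 2 * n ^ k2 := by rw [hK1, mul_pow]; ring
      have e3 : n ^ k1 = n ^ (k1 - k2) * n ^ k2 := by rw [← pow_add]; congr 1; omega
      rw [e3] at e2
      have e4 : n ^ (k1 - k2) ≤ K1 * E ^ 2 := Nat.le_of_mul_le_mul_right e2 (Nat.pow_pos hn1)
      have e5 : n ≤ n ^ (k1 - k2) := Nat.le_self_pow (by omega) n
      omega
  have b0 : (G0.card : ℝ) ≤ (K1 + 1) * (Y ^ 2 * Q) := by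
    have h1 : G0 ⊆ range (K1 * E ^ 2 + 1) := by
      intro n hn
      rw [hG0, mem_filter] at hn
      rw [mem_range]; omega
    have h2 := Finset.card_le_card h1
    rw [card_range] at h2
    have h3 : (G0.card : ℝ) ≤ K1 * (E : ℝ) ^ 2 + 1 := by exact_mod_cast h2
    have h4 : (E : ℝ) ^ 2 ≤ Y ^ 2 := by gcongr
    have h5 : (1 : ℝ) ≤ Y ^ 2 * Q := by
      have : (1 : ℝ) ≤ Y ^ 2 := one_le_pow₀ hY1
      nlinarith
    have h6 : (K1 : ℝ) * (E : ℝ) ^ 2 ≤ K1 * (Y ^ 2 * Q) := by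
      calc (K1 : ℝ) * (E : ℝ) ^ 2 ≤ K1 * (Y ^ 2 * 1) := by rw [mul_one]; gcongr
        _ ≤ K1 * (Y ^ 2 * Q) := by gcongr
    linarith
  have b1 : (G1.card : ℝ) ≤ (8 * k1 + T * (4 * cc k1 + 1)) * (Y ^ 2 * Q) := by
    have h1 := card_V k1 E X hE1 (T * Q) (fun e he => by
      rw [mem_Ioc] at he
      exact hTb X hX0 e (by omega) (by omega)) (by positivity) G1 (fun n hn => by
      rw [hG1, mem_filter] at hn
      refine ⟨?_, hn.2⟩
      have := hn.1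
      unfold FS at this
      rw [mem_filter, mem_range] at this
      omega)
    refine h1.trans ?_
    have h3 : (X : ℝ) + k1 ≤ 2 * X := by
      have : (k1 : ℝ) ≤ X := by exact_mod_cast hX
      linarith
    have hXY : (X : ℝ) * (4 / Y) = 4 * Y ^ 2 := by
      rw [← hY3]
      field_simp
    have e1 : (k1 : ℝ) * (((X : ℝ) + k1) * (2 / (E : ℝ))) ≤ 8 * k1 * (Y ^ 2 * Q) := by
      calc (k1 : ℝ) * (((X : ℝ) + k1) * (2 / (E : ℝ))) ≤ k1 * ((2 * X) * (4 / Y)) := by gcongr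
        _ = 2 * k1 * (X * (4 / Y)) := by ring
        _ = 8 * k1 * (Y ^ 2 * 1) := by rw [hXY]; ring
        _ ≤ 8 * k1 * (Y ^ 2 * Q) := by gcongr
    have e2 : (cc k1 : ℝ) * X * (2 / (E : ℝ)) + (E : ℝ) ^ 2 ≤ (4 * cc k1 + 1) * Y ^ 2 := by
      have e3 : (cc k1 : ℝ) * X * (2 / (E : ℝ)) ≤ 4 * cc k1 * Y ^ 2 := by
        calc (cc k1 : ℝ) * X * (2 / (E : ℝ)) ≤ cc k1 * X * (4 / Y) := by gcongr
          _ = cc k1 * (X * (4 / Y)) := by ring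
          _ = 4 * cc k1 * Y ^ 2 := by rw [hXY]; ring
      have e4 : (E : ℝ) ^ 2 ≤ Y ^ 2 := by gcongr
      linarith
    have e5 : T * Q * ((cc k1 : ℝ) * X * (2 / (E : ℝ)) + (E : ℝ) ^ 2) ≤ T * Q * ((4 * cc k1 + 1) * Y ^ 2) := by
      gcongr
    calc (k1 : ℝ) * (((X : ℝ) + k1) * (2 / (E : ℝ))) + T * Q * (cc k1 * X * (2 / (E : ℝ)) + (E : ℝ) ^ 2)
        ≤ 8 * k1 * (Y ^ 2 * Q) + T * Q * ((4 * cc k1 + 1) * Y ^ 2) := add_le_add e1 e5
      _ = _ := by ring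
  have hc := (Finset.card_le_card hsub).trans (Finset.card_union_le _ _)
  have hc' : ((FS k1 k2 X).card : ℝ) ≤ G0.card + G1.card := by exact_mod_cast hc
  rw [hfinal]
  calc ((FS k1 k2 X).card : ℝ) ≤ G0.card + G1.card := hc'
    _ ≤ (K1 + 1) * (Y ^ 2 * Q) + (8 * k1 + T * (4 * cc k1 + 1)) * (Y ^ 2 * Q) := add_le_add b0 b1
    _ = _ := by ring

lemma SS_card (k1 k2 X : ℕ) (hk2 : 2 ≤ k2) (T : ℝ)
    (hT : ∀ n1 ≤ X, ((B n1 k1).divisors.card : ℝ) ^ 2 * (Nat.log 2 (2 * X + 3) + 1) ≤ T) :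
    ((SS k1 k2 X).card : ℝ) ≤ (FS k1 k2 X).card * T := by
  classical
  have h1 : SS k1 k2 X ⊆ (FS k1 k2 X).biUnion (fun n1 =>
      ((range (X + 1)).filter (fun n2 => Sim (B n1 k1) (B n2 k2))).image (fun n2 => (n1, n2))) := by
    intro q hq
    unfold SS at hq
    rw [mem_filter, mem_product, mem_range, mem_range] at hq
    rw [mem_biUnion]
    refine ⟨q.1, ?_, ?_⟩
    · unfold FS
      rw [mem_filter, mem_range]
      exact ⟨hq.1.1, q.2, by omega, hq.2.1, hq.2.2.1, hq.2.2.2⟩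
    · rw [mem_image]
      exact ⟨q.2, mem_filter.2 ⟨mem_range.2 hq.1.2, hq.2.2.2⟩, rfl⟩
  have h2 : ((SS k1 k2 X).card : ℝ) ≤ ∑ n1 ∈ FS k1 k2 X,
      ((((range (X + 1)).filter (fun n2 => Sim (B n1 k1) (B n2 k2))).card : ℕ) : ℝ) := by
    have h3 := (Finset.card_le_card h1).trans (Finset.card_biUnion_le.trans
      (Finset.sum_le_sum fun n1 _ => Finset.card_image_le))
    exact_mod_cast h3
  refine h2.trans ?_
  have h4 : ∀ n1 ∈ FS k1 k2 X,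
      ((((range (X + 1)).filter (fun n2 => Sim (B n1 k1) (B n2 k2))).card : ℕ) : ℝ) ≤ T := by
    intro n1 hn1
    unfold FS at hn1
    rw [mem_filter, mem_range] at hn1
    refine le_trans ?_ (hT n1 (by omega))
    have h5 := card_second (B n1 k1) X (B_pos n1 k1)
      ((range (X + 1)).filter (fun n2 => Sim (B n1 k1) (B n2 k2))) (by
        intro n hn
        rw [mem_filter, mem_range] at hn
        refine ⟨by omega, fun p hp hpn => (hn.2 p hp).2 ?_⟩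
        rcases (Nat.Prime.dvd_mul hp).1 hpn with h | h
        · exact h.trans (dvd_B (by rw [mem_Icc]; omega))
        · exact h.trans (dvd_B (by rw [mem_Icc]; omega)))
    exact_mod_cast h5
  refine (Finset.sum_le_sum h4).trans (le_of_eq ?_)
  rw [Finset.sum_const, nsmul_eq_mul]

/-- generic combination -/
lemma combine (k : ℕ) (hk : 1 ≤ k) (θ ε : ℝ) (hε : 0 < ε) (F : ℕ → ℕ) (G : ℕ → ℕ)
    (hF : ∃ K : ℝ, 0 < K ∧ ∀ X : ℕ, k ≤ X → (F X : ℝ) ≤ K * (X : ℝ) ^ (θ + ε / 2))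
    (hG0 : ∀ X : ℕ, X < k → G X = 0)
    (hG : ∀ X : ℕ, k ≤ X → ∀ T : ℝ,
      (∀ n ≤ X, ((B n k).divisors.card : ℝ) ^ 2 * (Nat.log 2 (2 * X + 3) + 1) ≤ T) → (G X : ℝ) ≤ F X * T) :
    ∃ C : ℝ, 0 < C ∧ ∀ X : ℕ, 1 ≤ X → (G X : ℝ) ≤ C * (X : ℝ) ^ (θ + ε) := by
  obtain ⟨K, hK, hFK⟩ := hF
  set η : ℝ := min (ε / 4) 1 with hη
  have hη0 : 0 < η := by positivity
  have hη1 : η ≤ 1 := min_le_right _ _
  have hη2 : η ≤ ε / 4 := min_le_left _ _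
  obtain ⟨T, hT, hTb⟩ := T_bound k hk η hη0 hη1
  refine ⟨K * T, by positivity, fun X hX => ?_⟩
  have hX0r : (0 : ℝ) < X := by exact_mod_cast hX
  have hX1r : (1 : ℝ) ≤ X := by exact_mod_cast hX
  by_cases hkX : k ≤ X
  swap
  · rw [hG0 X (by omega)]
    simp only [Nat.cast_zero]
    positivity
  refine (hG X hkX _ (hTb X hkX)).trans ?_
  have hexp : (X : ℝ) ^ (θ + ε / 2) * (X : ℝ) ^ (2 * η) ≤ (X : ℝ) ^ (θ + ε) := by
    rw [← Real.rpow_add hX0r]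
    refine Real.rpow_le_rpow_of_exponent_le hX1r ?_
    linarith
  calc (F X : ℝ) * (T * (X : ℝ) ^ (2 * η))
      ≤ (K * (X : ℝ) ^ (θ + ε / 2)) * (T * (X : ℝ) ^ (2 * η)) := by
        gcongr
        exact hFK X hkX
    _ = K * T * ((X : ℝ) ^ (θ + ε / 2) * (X : ℝ) ^ (2 * η)) := by ring
    _ ≤ _ := by gcongr

theorem SS_sharp (k1 k2 : ℕ) (hk2 : 2 ≤ k2) (h12 : k2 < k1) (ε : ℝ) (hε : 0 < ε) :
    ∃ C : ℝ, 0 < C ∧ ∀ X : ℕ, 1 ≤ X → ((SS k1 k2 X).card : ℝ) ≤ C * (X : ℝ) ^ (2 / 3 + ε) := by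
  classical
  refine combine k1 (by omega) (2 / 3) ε hε (fun X => (FS k1 k2 X).card) (fun X => (SS k1 k2 X).card)
    (FS_sharp k1 k2 h12 (ε / 2) (by positivity)) (fun X hX => ?_) (fun X hX T hT => SS_card k1 k2 X hk2 T hT)
  rw [Finset.card_eq_zero, Finset.eq_empty_iff_forall_notMem]
  intro q hq
  unfold SS at hq
  rw [mem_filter, mem_product, mem_range, mem_range] at hq
  omega

end Pool.Agent.Helper577Blk
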