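import Pool.Agent.helper577_blk.DiagCount

set_option autoImplicit false

open Finset

namespace Pool.Agent.Helper577Blk

open Pool.Agent.Helper577Eps (Sim sqf_dvd tail_sq' harm_le)

/-- from square divisors `d i ^ 2 ∣ n + i` with large product one gets square divisors with product of a
prescribed size, or one large square divisor -/
lemma extract (n k E : ℕ) (hE : 1 ≤ E) (d : ℕ → ℕ) (hd : ∀ i ∈ Icc 1 k, d i ^ 2 ∣ n + i)
    (hprod : E < ∏ i ∈ Icc 1 k, d i) :
    (∃ i ∈ Icc 1 k, ∃ e : ℕ, E ≤ e ∧ e ^ 2 ∣ n + i) ∨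
    (∃ v : ℕ → ℕ, (∀ i ∈ Icc 1 k, v i ^ 2 ∣ n + i) ∧ E < ∏ i ∈ Icc 1 k, v i ∧
      ∏ i ∈ Icc 1 k, v i ≤ E ^ 2) := by
  classical
  have hex : ∃ P : ℕ, ∃ v : ℕ → ℕ, (∀ i ∈ Icc 1 k, v i ^ 2 ∣ n + i) ∧ E < ∏ i ∈ Icc 1 k, v i ∧
      ∏ i ∈ Icc 1 k, v i = P := ⟨_, d, hd, hprod, rfl⟩
  obtain ⟨v, hv, hvE, hvP⟩ := Nat.find_spec hex
  have hmin := fun m (hm : m < Nat.find hex) => Nat.find_min hex hm
  set P := Nat.find hex with hP
  by_cases hc : P ≤ E ^ 2
  · right
    exact ⟨v, hv, hvE, by rw [hvP]; exact hc⟩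
  · left
    push Not at hc
    have hP1 : P ≠ 1 := by
      intro h1
      rw [hvP, h1] at hvE
      omega
    have hp : (P.minFac).Prime := Nat.minFac_prime hP1
    set p := P.minFac with hpd
    have hpP : p ∣ ∏ i ∈ Icc 1 k, v i := by rw [hvP]; exact Nat.minFac_dvd P
    obtain ⟨j, hj, hpj⟩ := (Prime.dvd_finsetProd_iff hp.prime _).1 hpP
    obtain ⟨q, hq⟩ := hpj
    set v' := Function.update v j q with hv'
    have hprod' : p * ∏ i ∈ Icc 1 k, v' i = P := by
      rw [← hvP, hv', Finset.prod_update_of_mem hj, ← mul_assoc, ← hq,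
        ← Finset.prod_eq_mul_prod_sdiff_singleton_of_mem hj v]
    have hv'd : ∀ i ∈ Icc 1 k, v' i ^ 2 ∣ n + i := by
      intro i hi
      by_cases hij : i = j
      · subst hij
        rw [hv', Function.update_self]
        exact (pow_dvd_pow_of_dvd ⟨p, by rw [hq]; ring⟩ 2).trans (hv i hi)
      · rw [hv', Function.update_of_ne hij]
        exact hv i hi
    have hP0 : 0 < P := by omega
    have hlt : ∏ i ∈ Icc 1 k, v' i < P := by
      rw [← hprod']
      have h0 : 0 < ∏ i ∈ Icc 1 k, v' i := by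
        rcases Nat.eq_zero_or_pos (∏ i ∈ Icc 1 k, v' i) with h | h
        · rw [h] at hprod'; omega
        · exact h
      nlinarith [hp.two_le]
    have hle : ∏ i ∈ Icc 1 k, v' i ≤ E := by
      by_contra hcon
      push Not at hcon
      exact hmin _ hlt ⟨v', hv'd, hcon, rfl⟩
    refine ⟨j, hj, p, ?_, (pow_dvd_pow_of_dvd ⟨q, hq⟩ 2).trans (hv j hj)⟩
    have : P ≤ p * E := by rw [← hprod']; exact Nat.mul_le_mul_left _ hle
    by_contra hcon
    push Not at hcon
    nlinarith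

/-- the number of `n ≤ X` such that the `n + i` have square divisors `d i ^ 2` with `∏ d i > E` -/
lemma card_V (k E X : ℕ) (hE : 1 ≤ E) (T : ℝ) (hT : ∀ e ∈ Ioc E (E ^ 2), (e.divisors.card : ℝ) ^ k ≤ T)
    (hT0 : 0 ≤ T) (S : Finset ℕ)
    (hS : ∀ n ∈ S, n ≤ X ∧ ∃ d : ℕ → ℕ, (∀ i ∈ Icc 1 k, d i ^ 2 ∣ n + i) ∧ E < ∏ i ∈ Icc 1 k, d i) :
    (S.card : ℝ) ≤ k * (((X : ℝ) + k) * (2 / (E : ℝ))) + T * (cc k * X * (2 / (E : ℝ)) + (E : ℝ) ^ 2) := by
  classical
  set ext : (Fin k → ℕ) → ℕ → ℕ := fun w i => if h : i - 1 < k then w ⟨i - 1, h⟩ else 1 with hext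
  set S1 := S.filter (fun n => ∃ i ∈ Icc 1 k, ∃ e : ℕ, E ≤ e ∧ e ^ 2 ∣ n + i) with hS1
  set F : ℕ → (Fin k → ℕ) → Finset ℕ := fun e w => S.filter (fun n =>
    (∀ i ∈ Icc 1 k, ext w i ^ 2 ∣ n + i) ∧ ∏ i ∈ Icc 1 k, ext w i = e) with hF
  set S2 := (Ioc E (E ^ 2)).biUnion (fun e => (Fintype.piFinset (fun _ : Fin k => e.divisors)).biUnion
    (fun w => F e w)) with hS2
  have hsub : S ⊆ S1 ∪ S2 := by
    intro n hn
    obtain ⟨hnX, d, hd, hdE⟩ := hS n hn
    rw [mem_union]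
    rcases extract n k E hE d hd hdE with h | ⟨v, hv, hvE, hvE2⟩
    · left; rw [hS1, mem_filter]; exact ⟨hn, h⟩
    · right
      rw [hS2, mem_biUnion]
      refine ⟨∏ i ∈ Icc 1 k, v i, mem_Ioc.2 ⟨hvE, hvE2⟩, ?_⟩
      rw [mem_biUnion]
      have hextv : ∀ i ∈ Icc 1 k, ext (fun j : Fin k => v (j + 1)) i = v i := by
        intro i hi
        rw [mem_Icc] at hi
        have h1 : i - 1 < k := by omega
        simp only [hext, h1, dite_true]
        congr 1
        omega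
      refine ⟨fun j : Fin k => v (j + 1), ?_, ?_⟩
      · rw [Fintype.mem_piFinset]
        intro j
        rw [Nat.mem_divisors]
        refine ⟨Finset.dvd_prod_of_mem _ (mem_Icc.2 ⟨by omega, by omega⟩), by omega⟩
      · simp only [hF, mem_filter]
        refine ⟨hn, fun i hi => ?_, Finset.prod_congr rfl hextv⟩
        rw [hextv i hi]
        exact hv i hi
  have b1 : (S1.card : ℝ) ≤ k * (((X : ℝ) + k) * (2 / (E : ℝ))) := by
    refine card_square k E X hE S1 fun n hn => ?_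
    rw [hS1, mem_filter] at hn
    exact ⟨(hS n hn.1).1, hn.2⟩
  have hccr : (0 : ℝ) < cc k := by exact_mod_cast cc_pos k
  have bF : ∀ e ∈ Ioc E (E ^ 2), ∀ w, ((F e w).card : ℝ) ≤ cc k * X * (1 / (e : ℝ) ^ 2) + 1 := by
    intro e he w
    rw [mem_Ioc] at he
    have he0 : (0 : ℝ) < e := by
      have : 0 < e := by omega
      exact_mod_cast this
    have h1 := card_spaced X ((e : ℝ) ^ 2 / cc k) (by positivity) (F e w) (fun n hn => by
      simp only [hF, mem_filter] at hn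
      exact (hS n hn.1).1) (by
      intro n hn n' hn' hlt
      simp only [hF, mem_filter] at hn hn'
      have h2 := prod_dvd n (n' - n) (fun i => ext w i ^ 2) k hn.2.1 (fun i hi => by
        have := Nat.dvd_sub (hn'.2.1 i hi) (hn.2.1 i hi)
        have e1 : n' + i - (n + i) = n' - n := by omega
        rwa [e1] at this)
      rw [Finset.prod_pow, hn.2.2] at h2
      have h3 := Nat.le_of_dvd (Nat.mul_pos (cc_pos k) (by omega)) h2
      have h4 : (e : ℝ) ^ 2 ≤ cc k * ((n' : ℝ) - n) := by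
        have : (e : ℝ) ^ 2 ≤ cc k * ((n' - n : ℕ) : ℝ) := by exact_mod_cast h3
        rwa [Nat.cast_sub hlt.le] at this
      rw [div_le_iff₀ hccr]
      linarith)
    refine h1.trans (le_of_eq ?_)
    field_simp
  have b2 : (S2.card : ℝ) ≤ T * (cc k * X * (2 / (E : ℝ)) + (E : ℝ) ^ 2) := by
    have h1 : (S2.card : ℝ) ≤ ∑ e ∈ Ioc E (E ^ 2), ∑ w ∈ Fintype.piFinset (fun _ : Fin k => e.divisors),
        ((F e w).card : ℝ) := by
      have h3 : S2.card ≤ _ := Finset.card_biUnion_le.trans (Finset.sum_le_sum fun e _ => Finset.card_biUnion_le)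
      exact_mod_cast h3
    refine h1.trans ?_
    have h2 : ∀ e ∈ Ioc E (E ^ 2), ∑ w ∈ Fintype.piFinset (fun _ : Fin k => e.divisors),
        ((F e w).card : ℝ) ≤ T * (cc k * X * (1 / (e : ℝ) ^ 2) + 1) := by
      intro e he
      refine (Finset.sum_le_sum fun w _ => bF e he w).trans ?_
      rw [Finset.sum_const, nsmul_eq_mul, Fintype.card_piFinset_const]
      push_cast
      have := hT e he
      gcongr
    refine (Finset.sum_le_sum h2).trans ?_
    rw [← Finset.mul_sum, Finset.sum_add_distrib, ← Finset.mul_sum]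
    have h4 : ∑ e ∈ Ioc E (E ^ 2), 1 / (e : ℝ) ^ 2 ≤ 2 / (E : ℝ) := by
      refine le_trans (Finset.sum_le_sum_of_subset_of_nonneg ?_ (fun _ _ _ => by positivity))
        (tail_sq' (E : ℝ) (by exact_mod_cast hE) (E ^ 2))
      intro e he
      rw [mem_Ioc] at he
      rw [mem_filter, mem_Icc]
      exact ⟨⟨by omega, he.2⟩, by exact_mod_cast he.1⟩
    have h5 : ∑ _e ∈ Ioc E (E ^ 2), (1 : ℝ) ≤ (E : ℝ) ^ 2 := by
      rw [Finset.sum_const, nsmul_eq_mul, Nat.card_Ioc, mul_one]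
      have : E ^ 2 - E ≤ E ^ 2 := Nat.sub_le _ _
      exact_mod_cast this
    gcongr
  have hc := (Finset.card_le_card hsub).trans (Finset.card_union_le _ _)
  have hc' : (S.card : ℝ) ≤ S1.card + S2.card := by exact_mod_cast hc
  linarith

end Pool.Agent.Helper577Blk
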